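import Pool.Agent.U474.KN.Pur

/-!
# Gauss tensors of codimension two, for normal planes of any signature
-/

set_option autoImplicit false

namespace Pool.Agent.U474.KN

open Pool.Agent.W666.GB Pool.Agent.W669.HD Pool.Agent.W688.HD Finset

section forms

variable {V : Type} [NormedAddCommGroup V] [InnerProductSpace ℝ V]

/-- symmetric bilinear forms on `V`. (Linearity in the first argument and the symmetry imply
linearity in the second one.) -/
structure SymForm (A : V → V → ℝ) : Prop where
  symm : ∀ x y, A x y = A y x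
  add : ∀ x x' y, A (x + x') y = A x y + A x' y
  smul : ∀ (t : ℝ) (x y : V), A (t • x) y = t * A x y

/-- the linear map -/
def SymForm.toL {A : V → V → ℝ} (h : SymForm A) : V →ₗ[ℝ] V →ₗ[ℝ] ℝ :=
  LinearMap.mk₂ ℝ A h.add h.smul
    (fun x y y' => by rw [h.symm, h.add, h.symm y, h.symm y'])
    (fun t x y => by rw [h.symm, h.smul, h.symm y]; rfl)

theorem SymForm.toL_apply {A : V → V → ℝ} (h : SymForm A) (x y : V) : h.toL x y = A x y := rfl

theorem SymForm.comb {A B : V → V → ℝ} (hA : SymForm A) (hB : SymForm B) (s t : ℝ) :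
    SymForm (fun x y => s * A x y + t * B x y) where
  symm x y := by rw [hA.symm, hB.symm]
  add x x' y := by simp only [hA.add, hB.add]; ring
  smul r x y := by simp only [hA.smul, hB.smul]; ring

/-- The curvature tensor given by the Gauss equation for the second fundamental form `(A, B)`, whose
values lie in a plane with the inner product of matrix `(a b; b c)`, of any signature. -/
def gauss2 (a b c : ℝ) (A B : V → V → ℝ) (x y z w : V) : ℝ :=
  a * (A x z * A y w - A x w * A y z) +
  b * (A x z * B y w + B x z * A y w - A x w * B y z - B x w * A y z) +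
  c * (B x z * B y w - B x w * B y z)

theorem gauss2_curv {A B : V → V → ℝ} (hA : SymForm A) (hB : SymForm B) (a b c : ℝ) :
    AlgCurv (gauss2 a b c A B) where
  add x x' y z w := by simp only [gauss2, hA.add, hB.add]; ring
  smul t x y z w := by simp only [gauss2, hA.smul, hB.smul]; ring
  anti x y z w := by simp only [gauss2]; ring
  pair x y z w := by
    simp only [gauss2]
    rw [hA.symm z x, hA.symm w y, hA.symm z y, hA.symm w x, hB.symm z x, hB.symm w y,
      hB.symm z y, hB.symm w x]
    ring
  bianchi x y z w := by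
    simp only [gauss2]
    rw [hA.symm y x, hA.symm z x, hA.symm z y, hB.symm y x, hB.symm z x, hB.symm z y]
    ring

/-- sectional curvatures at least `δ` -/
def SecGe (K : V → V → V → V → ℝ) (δ : ℝ) : Prop := ∀ x y, δ * unitT x y x y ≤ K x y x y

/-- The normal forms: `K` is the Kulkarni–Nomizu product of two forms, or plus or minus the sum of
two Kulkarni–Nomizu squares. -/
theorem normal_form {A B : V → V → ℝ} (hA : SymForm A) (hB : SymForm B) (a b c : ℝ) :
    (∃ P Q : V → V → ℝ, SymForm P ∧ SymForm Q ∧
      gauss2 a b c A B = gauss2 0 (1 / 2) 0 P Q) ∨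
    (0 < a ∧ b ^ 2 < a * c ∧ ∃ P Q : V → V → ℝ, SymForm P ∧ SymForm Q ∧
      gauss2 a b c A B = gauss2 1 0 1 P Q) ∨
    (a < 0 ∧ b ^ 2 < a * c ∧ ∃ P Q : V → V → ℝ, SymForm P ∧ SymForm Q ∧
      gauss2 a b c A B = gauss2 (-1) 0 (-1) P Q) := by
  rcases le_or_gt (a * c) (b ^ 2) with h | h
  · left
    by_cases ha : a = 0
    · subst ha
      refine ⟨_, _, hA.comb hB (2 * b) c, hA.comb hB 0 1, ?_⟩
      funext x y z w
      simp only [gauss2]
      ring
    · have h0 : 0 ≤ b ^ 2 - a * c := by linarith
      have h1 := Real.sq_sqrt h0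
      set r := Real.sqrt (b ^ 2 - a * c) with hr
      refine ⟨_, _, hA.comb hB a (b + r), hA.comb hB 1 ((b - r) / a), ?_⟩
      funext x y z w
      simp only [gauss2]
      have h2 : c = (b ^ 2 - r ^ 2) / a := by
        rw [h1]; field_simp; ring
      rw [h2]
      field_simp
      ring
  · right
    have ha : a ≠ 0 := by
      intro ha
      rw [ha] at h
      nlinarith [sq_nonneg b]
    rcases lt_or_gt_of_ne ha with ha | ha
    · right
      have ha' : 0 < -a := by linarith
      refine ⟨ha, h, ?_⟩
      have h3 : 0 ≤ (a * c - b ^ 2) / (-a) := div_nonneg (by linarith) ha'.le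
      have h1 := Real.sq_sqrt ha'.le
      have h2 := Real.sq_sqrt h3
      set r := Real.sqrt (-a) with hr
      set s := Real.sqrt ((a * c - b ^ 2) / (-a)) with hs
      have hr0 : r ≠ 0 := (Real.sqrt_pos.2 ha').ne'
      refine ⟨_, _, hA.comb hB r (-(b / r)), hA.comb hB 0 s, ?_⟩
      have e1 : a = - r ^ 2 := by rw [h1]; ring
      have e2 : c = - s ^ 2 - b ^ 2 / r ^ 2 := by
        rw [h2, h1]
        field_simp
        ring
      funext x y z w
      simp only [gauss2]
      rw [e1, e2]
      field_simp
      ring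
    · left
      refine ⟨ha, h, ?_⟩
      have h3 : 0 ≤ (a * c - b ^ 2) / a := div_nonneg (by linarith) ha.le
      have h1 := Real.sq_sqrt ha.le
      have h2 := Real.sq_sqrt h3
      set r := Real.sqrt a with hr
      set s := Real.sqrt ((a * c - b ^ 2) / a) with hs
      have hr0 : r ≠ 0 := (Real.sqrt_pos.2 ha).ne'
      refine ⟨_, _, hA.comb hB r (b / r), hA.comb hB 0 s, ?_⟩
      have e1 : a = r ^ 2 := by rw [h1]
      have e2 : c = s ^ 2 + b ^ 2 / r ^ 2 := by
        rw [h2, h1]
        field_simp
        ring
      funext x y z w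
      simp only [gauss2]
      rw [e1, e2]
      field_simp
      ring

theorem gauss2_kn {P Q : V → V → ℝ} (hP : SymForm P) (hQ : SymForm Q) (x y z w : V) :
    gauss2 0 (1 / 2) 0 P Q x y z w = 1 / 2 * knL hP.toL hQ.toL x y z w := by
  simp only [gauss2, knL, SymForm.toL_apply]
  ring

/-- **Weinstein's theorem, one form for each sign.** -/
theorem op_kn {P Q : V → V → ℝ} (hP : SymForm P) (hQ : SymForm Q)
    (h : SecGe (gauss2 0 (1 / 2) 0 P Q) 0) : OpNonneg (gauss2 0 (1 / 2) 0 P Q) := by
  have h1 := op_all (A := hP.toL) (B := hQ.toL) (fun x y => hP.symm x y) (fun x y => hQ.symm x y)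
    (fun x y => by
      have := h x y
      rw [gauss2_kn hP hQ] at this
      linarith)
  intro n x y
  have h2 := h1 n x y
  simp only [gauss2_kn hP hQ, ← Finset.mul_sum]
  linarith

/-- the sum of a Gauss tensor over pairs, for two squares -/
theorem op_semi {P : V → V → ℝ} (hP : SymForm P) (h0 : ∀ x, 0 ≤ P x x) :
    OpNonneg (gauss2 1 0 0 P P) := by
  have hcs : ∀ x y, P x y ^ 2 ≤ P x x * P y y := by
    intro x y
    have h1 : ∀ t : ℝ, 0 ≤ P y y * (t * t) + (2 * P x y) * t + P x x := by
      intro t
      have h2 := h0 (x + t • y)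
      have h3 : P (x + t • y) (x + t • y) = P y y * (t * t) + (2 * P x y) * t + P x x := by
        rw [hP.add, hP.smul, hP.symm x, hP.symm y, hP.add, hP.add, hP.smul, hP.smul, hP.symm y x]
        ring
      linarith
    have h4 := discrim_le_zero h1
    rw [discrim] at h4
    nlinarith
  have e1 : ∀ x y z w, gauss2 1 0 0 P P x y z w = 1 / 2 * knL hP.toL hP.toL x y z w := by
    intro x y z w
    simp only [gauss2, knL, SymForm.toL_apply]
    ring
  have h1 := op_all (A := hP.toL) (B := hP.toL) (fun x y => hP.symm x y) (fun x y => hP.symm x y)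
    (fun x y => by
      have := hcs x y
      simp only [knL, SymForm.toL_apply]
      rw [hP.symm y x]
      nlinarith)
  intro n x y
  have h2 := h1 n x y
  simp only [e1, ← Finset.mul_sum]
  linarith

end forms

end Pool.Agent.U474.KN
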