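import Pool.Agent.U474.KN.Iso

/-!
# A definite combination of two symmetric forms
-/

set_option autoImplicit false

namespace Pool.Agent.U474.KN

open Finset Metric

/-- A traceless binary form has an isotropic vector. -/
theorem traceless (a p : ℝ) : ∃ c s : ℝ, (c ≠ 0 ∨ s ≠ 0) ∧ a * (c ^ 2 - s ^ 2) + 2 * p * (c * s) = 0 := by
  by_cases ha : a = 0
  · exact ⟨1, 0, Or.inl one_ne_zero, by rw [ha]; ring⟩
  · have h0 : 0 ≤ p ^ 2 + a ^ 2 := by positivity
    have h1 : Real.sqrt (p ^ 2 + a ^ 2) ^ 2 = p ^ 2 + a ^ 2 := Real.sq_sqrt h0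
    refine ⟨(- p + Real.sqrt (p ^ 2 + a ^ 2)) / a, 1, Or.inr one_ne_zero, ?_⟩
    generalize Real.sqrt (p ^ 2 + a ^ 2) = r at h1
    field_simp
    nlinarith [h1]

section opp

variable {V : Type*} [AddCommGroup V] [Module ℝ V] {A B : V →ₗ[ℝ] V →ₗ[ℝ] ℝ}

/-- No two vectors with opposite values. -/
theorem no_opp (hn : 3 ≤ Module.finrank ℝ V) (hA : ∀ x y, A x y = A y x)
    (hB : ∀ x y, B x y = B y x) (hK : ∀ x y, 0 ≤ knL A B x y x y)
    (hiso : ∀ u, A u u = 0 → B u u = 0 → u = 0) {x y : V} (hx : x ≠ 0)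
    (h1 : A y y = - A x x) (h2 : B y y = - B x x) : False := by
  have hyx : ∀ c : ℝ, y ≠ c • x := by
    intro c hc
    rw [hc] at h1 h2
    simp only [map_smul, LinearMap.smul_apply, smul_eq_mul] at h1 h2
    have h3 : (1 + c * c) * A x x = 0 := by linarith
    have h4 : (1 + c * c) * B x x = 0 := by linarith
    have h5 : (1 + c * c) ≠ 0 := by
      have h6 : 0 < 1 + c * c := by linarith [mul_self_nonneg c]
      exact h6.ne'
    exact hx (hiso x ((mul_eq_zero.1 h3).resolve_left h5) ((mul_eq_zero.1 h4).resolve_left h5))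
  have hcomb : ∀ c s : ℝ, (c ≠ 0 ∨ s ≠ 0) → c • x + s • y ≠ 0 := by
    intro c s hcs h0
    by_cases hs : s = 0
    · rw [hs, zero_smul, add_zero] at h0
      rcases hcs with h | h
      · exact hx ((smul_eq_zero.1 h0).resolve_left h)
      · exact h hs
    · refine hyx (- c / s) ?_
      have h3 : s • y = - (c • x) := by rw [← sub_eq_zero, sub_neg_eq_add, add_comm]; exact h0
      have h4 : y = s⁻¹ • (s • y) := by rw [smul_smul, inv_mul_cancel₀ hs, one_smul]
      rw [h4, h3, smul_neg, smul_smul, ← neg_smul]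
      congr 1
      field_simp
  have hAv : ∀ c s : ℝ, A (c • x + s • y) (c • x + s • y) =
      A x x * (c ^ 2 - s ^ 2) + 2 * A x y * (c * s) := by
    intro c s
    simp only [map_add, map_smul, LinearMap.add_apply, LinearMap.smul_apply, smul_eq_mul, h1]
    rw [hA y x]; ring
  have hBv : ∀ c s : ℝ, B (c • x + s • y) (c • x + s • y) =
      B x x * (c ^ 2 - s ^ 2) + 2 * B x y * (c * s) := by
    intro c s
    simp only [map_add, map_smul, LinearMap.add_apply, LinearMap.smul_apply, smul_eq_mul, h2]
    rw [hB y x]; ring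
  -- the first form is not zero on the plane
  have hD : A x x ^ 2 + A x y ^ 2 ≠ 0 := by
    intro h0
    have ha : A x x = 0 := by nlinarith [sq_nonneg (A x x), sq_nonneg (A x y)]
    have hp : A x y = 0 := by nlinarith [sq_nonneg (A x x), sq_nonneg (A x y)]
    obtain ⟨c, s, hcs, h3⟩ := traceless (B x x) (B x y)
    refine hcomb c s hcs (hiso _ ?_ ?_)
    · rw [hAv, ha, hp]; ring
    · rw [hBv]; exact h3
  -- a third vector
  obtain ⟨z₀, hz₀⟩ : ∃ z, z ∉ Submodule.span ℝ ({x, y} : Set V) := by
    by_contra hc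
    push Not at hc
    have h3 : Submodule.span ℝ ({x, y} : Set V) = ⊤ := by
      rw [eq_top_iff]; intro z _; exact hc z
    have h4 : Module.finrank ℝ (Submodule.span ℝ ({x, y} : Set V)) ≤ 2 := by
      classical
      have h5 := finrank_span_finset_le_card (R := ℝ) ({x, y} : Finset V)
      have h6 : ((({x, y} : Finset V) : Set V)) = ({x, y} : Set V) := by simp
      rw [Set.finrank, h6] at h5
      exact h5.trans (Finset.card_le_two)
    rw [h3, finrank_top] at h4
    omega
  set D : ℝ := A x x ^ 2 + A x y ^ 2 with hDd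
  set α : ℝ := - (A x x * A z₀ x + A x y * A z₀ y) / D with hα
  set β : ℝ := - (A x y * A z₀ x - A x x * A z₀ y) / D with hβ
  set z : V := z₀ + α • x + β • y with hz
  have hz0 : z ≠ 0 := by
    intro h0
    apply hz₀
    have h3 : z₀ = (- α) • x + (- β) • y := by
      have h4 : z₀ = z - α • x - β • y := by rw [hz]; abel
      rw [h4, h0]; module
    rw [h3]
    exact Submodule.add_mem _ (Submodule.smul_mem _ _ (Submodule.subset_span (by simp)))
      (Submodule.smul_mem _ _ (Submodule.subset_span (by simp)))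
  have hzx : A z x = 0 := by
    rw [hz]
    simp only [map_add, map_smul, LinearMap.add_apply, LinearMap.smul_apply, smul_eq_mul]
    rw [hA y x, hα, hβ]
    field_simp
    rw [hDd]; ring
  have hzy : A z y = 0 := by
    rw [hz]
    simp only [map_add, map_smul, LinearMap.add_apply, LinearMap.smul_apply, smul_eq_mul]
    rw [h1, hα, hβ]
    field_simp
    rw [hDd]; ring
  have hxz : A x z = 0 := by rw [hA]; exact hzx
  have hyz : A y z = 0 := by rw [hA]; exact hzy
  -- the sectional values
  have hu : ∀ c s : ℝ, 0 ≤ (A x x * (c ^ 2 - s ^ 2) + 2 * A x y * (c * s)) * B z z +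
      A z z * (B x x * (c ^ 2 - s ^ 2) + 2 * B x y * (c * s)) := by
    intro c s
    have h3 := hK (c • x + s • y) z
    have h4 : A (c • x + s • y) z = 0 := by
      simp only [map_add, map_smul, LinearMap.add_apply, LinearMap.smul_apply, smul_eq_mul, hxz,
        hyz]
      ring
    have h5 : A z (c • x + s • y) = 0 := by rw [hA]; exact h4
    rw [knL, h4, h5, hAv, hBv] at h3
    linarith
  have e1 : A x x * B z z + A z z * B x x = 0 := by
    have h3 := hu 1 0
    have h4 := hu 0 1
    linarith
  have e2 : A x y * B z z + A z z * B x y = 0 := by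
    have h3 := hu 1 1
    have h4 := hu 1 (-1)
    linarith
  by_cases hBz : B z z = 0
  · have hAz : A z z ≠ 0 := fun h => hz0 (hiso z h hBz)
    rw [hBz] at e1 e2
    have b1 : B x x = 0 := by
      have : A z z * B x x = 0 := by linarith
      exact (mul_eq_zero.1 this).resolve_left hAz
    have b2 : B x y = 0 := by
      have : A z z * B x y = 0 := by linarith
      exact (mul_eq_zero.1 this).resolve_left hAz
    obtain ⟨c, s, hcs, h3⟩ := traceless (A x x) (A x y)
    refine hcomb c s hcs (hiso _ ?_ ?_)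
    · rw [hAv]; exact h3
    · rw [hBv, b1, b2]; ring
  · obtain ⟨c, s, hcs, h3⟩ := traceless (B x x) (B x y)
    refine hcomb c s hcs (hiso _ ?_ ?_)
    · rw [hAv]
      have h4 : (A x x * (c ^ 2 - s ^ 2) + 2 * A x y * (c * s)) * B z z = 0 := by
        have h5 : (A x x * (c ^ 2 - s ^ 2) + 2 * A x y * (c * s)) * B z z =
            - A z z * (B x x * (c ^ 2 - s ^ 2) + 2 * B x y * (c * s)) := by
          linear_combination (c ^ 2 - s ^ 2) * e1 + 2 * (c * s) * e2
        rw [h5, h3, mul_zero]
      exact (mul_eq_zero.1 h4).resolve_right hBz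
    · rw [hBv]; exact h3

end opp

end Pool.Agent.U474.KN
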