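import Pool.Agent.U474.KN.Exi

/-!
# Simultaneous diagonalisation
-/

set_option autoImplicit false

namespace Pool.Agent.U474.KN

/-- Two symmetric forms, one of them positive definite, have a common orthogonal basis. -/
theorem exists_diag_pos {V : Type*} [AddCommGroup V] [Module ℝ V] [FiniteDimensional ℝ V]
    {P D : V →ₗ[ℝ] V →ₗ[ℝ] ℝ} (hP : ∀ x y, P x y = P y x) (hD : ∀ x y, D x y = D y x)
    (hpos : ∀ x, x ≠ 0 → 0 < P x x) :
    ∃ b : Module.Basis (Fin (Module.finrank ℝ V)) ℝ V,
      (∀ i j, i ≠ j → P (b i) (b j) = 0) ∧ (∀ i j, i ≠ j → D (b i) (b j) = 0) := by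
  classical
  letI c : InnerProductSpace.Core ℝ V :=
    { inner := fun x y => P x y
      conj_inner_symm := fun x y => by simp [hP x y]
      re_inner_nonneg := fun x => by
        by_cases hx : x = 0
        · simp [hx]
        · simpa using (hpos x hx).le
      add_left := fun x y z => by simp
      smul_left := fun x y r => by simp
      definite := fun x hx => by
        by_contra h
        exact (hpos x h).ne' hx }
  letI i1 : NormedAddCommGroup V := c.toNormedAddCommGroup
  letI i2 : InnerProductSpace ℝ V := InnerProductSpace.ofCore c.toCore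
  have hin : ∀ x y : V, inner ℝ x y = P x y := fun x y => rfl
  set e := stdOrthonormalBasis ℝ V with he
  set T : V →ₗ[ℝ] V := ∑ i, (D.flip (e i)).smulRight (e i) with hT
  have hTD : ∀ x y, inner ℝ (T x) y = D x y := by
    intro x y
    have h1 : D x y = ∑ i, inner ℝ (e i) y * D x (e i) := by
      conv_lhs => rw [← e.sum_repr' y]
      simp [map_sum]
    rw [h1, hT]
    simp only [LinearMap.sum_apply, LinearMap.smulRight_apply, LinearMap.flip_apply, sum_inner,
      real_inner_smul_left]
    exact Finset.sum_congr rfl fun i _ => mul_comm _ _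
  have hTs : T.IsSymmetric := by
    intro x y
    rw [hTD, real_inner_comm, hTD, hD]
  set b := hTs.eigenvectorBasis rfl with hb
  refine ⟨b.toBasis, fun i j hij => ?_, fun i j hij => ?_⟩
  · rw [← hin, OrthonormalBasis.coe_toBasis]
    exact b.orthonormal.2 hij
  · rw [← hTD, OrthonormalBasis.coe_toBasis, hb, LinearMap.IsSymmetric.apply_eigenvectorBasis]
    have h3 : inner ℝ (b i) (b j) = 0 := b.orthonormal.2 hij
    rw [← hb, real_inner_smul_left, h3, mul_zero]

/-- Two symmetric forms with a positive definite combination have a common orthogonal basis. -/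
theorem exists_diag {V : Type*} [AddCommGroup V] [Module ℝ V] [FiniteDimensional ℝ V]
    {A B : V →ₗ[ℝ] V →ₗ[ℝ] ℝ} (hA : ∀ x y, A x y = A y x) (hB : ∀ x y, B x y = B y x)
    {s t : ℝ} (hpos : ∀ x, x ≠ 0 → 0 < s * A x x + t * B x x) :
    ∃ b : Module.Basis (Fin (Module.finrank ℝ V)) ℝ V,
      (∀ i j, i ≠ j → A (b i) (b j) = 0) ∧ (∀ i j, i ≠ j → B (b i) (b j) = 0) := by
  by_cases hst : s ^ 2 + t ^ 2 = 0
  · have hs : s = 0 := by nlinarith [sq_nonneg s, sq_nonneg t]
    have ht : t = 0 := by nlinarith [sq_nonneg s, sq_nonneg t]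
    have h0 : Module.finrank ℝ V = 0 := by
      rw [Module.finrank_zero_iff]
      refine subsingleton_iff_forall_eq 0 |>.2 fun x => ?_
      by_contra hx
      have := hpos x hx
      rw [hs, ht] at this
      simp at this
    refine ⟨Module.finBasis ℝ V, fun i => ?_, fun i => ?_⟩
    · exact absurd i.2 (by omega)
    · exact absurd i.2 (by omega)
  · obtain ⟨b, h1, h2⟩ := exists_diag_pos (P := s • A + t • B) (D := s • B - t • A)
      (fun x y => by simp [hA x y, hB x y]) (fun x y => by simp [hA x y, hB x y])
      (fun x hx => by simpa using hpos x hx)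
    refine ⟨b, fun i j hij => ?_, fun i j hij => ?_⟩
    · have h3 := h1 i j hij
      have h4 := h2 i j hij
      simp only [LinearMap.add_apply, LinearMap.sub_apply, LinearMap.smul_apply, smul_eq_mul]
        at h3 h4
      have h5 : (s ^ 2 + t ^ 2) * A (b i) (b j) = 0 := by linear_combination s * h3 - t * h4
      exact (mul_eq_zero.1 h5).resolve_left hst
    · have h3 := h1 i j hij
      have h4 := h2 i j hij
      simp only [LinearMap.add_apply, LinearMap.sub_apply, LinearMap.smul_apply, smul_eq_mul]
        at h3 h4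
      have h5 : (s ^ 2 + t ^ 2) * B (b i) (b j) = 0 := by linear_combination t * h3 + s * h4
      exact (mul_eq_zero.1 h5).resolve_left hst

end Pool.Agent.U474.KN
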