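import Pool.Agent.U474.KN.Def

/-!
# Existence of a definite combination
-/

set_option autoImplicit false

namespace Pool.Agent.U474.KN

open Metric Complex

variable {V : Type*} [NormedAddCommGroup V] [InnerProductSpace ℝ V] [FiniteDimensional ℝ V]
  {A B : V →ₗ[ℝ] V →ₗ[ℝ] ℝ}

theorem cont_diag (C : V →ₗ[ℝ] V →ₗ[ℝ] ℝ) : Continuous fun x : V => C x x := by
  have h1 : (fun x : V => C x x) = fun x => ∑ i, (stdOrthonormalBasis ℝ V).toBasis.coord i x *
      C ((stdOrthonormalBasis ℝ V).toBasis i) x := by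
    funext x
    have h2 : C x = ∑ i, (stdOrthonormalBasis ℝ V).toBasis.repr x i •
        C ((stdOrthonormalBasis ℝ V).toBasis i) := by
      conv_lhs => rw [← (stdOrthonormalBasis ℝ V).toBasis.sum_repr x]
      rw [map_sum]
      refine Finset.sum_congr rfl fun i _ => ?_
      rw [map_smul]
    rw [h2, LinearMap.sum_apply]
    refine Finset.sum_congr rfl fun i _ => ?_
    rw [LinearMap.smul_apply, smul_eq_mul, Module.Basis.coord_apply]
  rw [h1]
  exact continuous_finsetSum _ fun i _ =>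
    (LinearMap.continuous_of_finiteDimensional _).mul (LinearMap.continuous_of_finiteDimensional _)

theorem exists_definite (hn : 3 ≤ Module.finrank ℝ V) (hA : ∀ x y, A x y = A y x)
    (hB : ∀ x y, B x y = B y x) (hK : ∀ x y, 0 ≤ knL A B x y x y)
    (hiso : ∀ u, A u u = 0 → B u u = 0 → u = 0) :
    ∃ s t : ℝ, ∀ x, x ≠ 0 → 0 < s * A x x + t * B x x := by
  set φ : V → ℂ := fun x => ⟨A x x, B x x⟩ with hφ
  have hre : ∀ x, (φ x).re = A x x := fun x => rfl
  have him : ∀ x, (φ x).im = B x x := fun x => rfl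
  have hsc : ∀ (c : ℝ) x, φ (c • x) = ((c * c : ℝ) : ℂ) * φ x := by
    intro c x
    apply Complex.ext
    · simp only [hre, map_smul, LinearMap.smul_apply, smul_eq_mul, Complex.re_ofReal_mul]
      ring
    · simp only [him, map_smul, LinearMap.smul_apply, smul_eq_mul, Complex.im_ofReal_mul]
      ring
  have h0 : ∀ x, x ≠ 0 → φ x ≠ 0 := by
    intro x hx h
    exact hx (hiso x (by rw [← hre, h]; rfl) (by rw [← him, h]; rfl))
  have hcφ : Continuous φ := by
    have : φ = fun x => ((A x x : ℝ) : ℂ) + ((B x x : ℝ) : ℂ) * I := by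
      funext x
      apply Complex.ext <;> simp [hφ]
    rw [this]
    exact (Complex.continuous_ofReal.comp (cont_diag A)).add
      ((Complex.continuous_ofReal.comp (cont_diag B)).mul continuous_const)
  have hopp : ∀ x y, x ≠ 0 → y ≠ 0 → φ y / φ x ∈ slitPlane := by
    intro x y hx hy
    by_contra h
    rw [Complex.mem_slitPlane_iff_not_le_zero, not_not] at h
    obtain ⟨h1, h2⟩ := Complex.le_def.1 h
    simp only [Complex.zero_re, Complex.zero_im] at h1 h2
    set r : ℝ := (φ y / φ x).re with hr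
    have h3 : φ y / φ x = (r : ℂ) := by
      apply Complex.ext
      · simp [hr]
      · simp [h2]
    have h4 : φ y = (r : ℂ) * φ x := by
      rw [← h3, div_mul_cancel₀ _ (h0 x hx)]
    have hr0 : r < 0 := by
      rcases h1.lt_or_eq with h5 | h5
      · exact h5
      · exfalso
        rw [h5] at h4
        exact h0 y hy (by rw [h4]; simp)
    have h5 : φ (Real.sqrt (-r) • x) = - φ y := by
      rw [hsc, Real.mul_self_sqrt (by linarith), h4]
      push_cast; ring
    have h6 : Real.sqrt (-r) • x ≠ 0 :=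
      smul_ne_zero (Real.sqrt_pos.2 (by linarith)).ne' hx
    refine no_opp hn hA hB hK hiso h6 (y := y) ?_ ?_
    · rw [← hre, ← hre, h5, Complex.neg_re, neg_neg]
    · rw [← him, ← him, h5, Complex.neg_im, neg_neg]
  have : Nontrivial V := Module.nontrivial_of_finrank_pos (R := ℝ) (by omega)
  obtain ⟨x0, hx0⟩ := exists_ne (0 : V)
  set g : V → ℂ := fun x => φ x / φ x0 with hg
  have hs0 : ∀ x ∈ sphere (0 : V) 1, x ≠ 0 := by
    intro x hx h
    rw [h] at hx
    simp at hx
  have hcont : ContinuousOn (fun x => arg (g x)) (sphere (0 : V) 1) := by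
    intro x hx
    have h1 : ContinuousAt g x := by
      apply Continuous.continuousAt
      exact hcφ.div_const _
    have h2 : ContinuousAt arg (g x) := Complex.continuousAt_arg (hopp x0 x hx0 (hs0 x hx))
    exact (ContinuousAt.comp h2 h1).continuousWithinAt
  have hcomp : IsCompact (sphere (0 : V) 1) := isCompact_sphere _ _
  have hne : (sphere (0 : V) 1).Nonempty := NormedSpace.sphere_nonempty.2 zero_le_one
  have hconn : IsPreconnected (sphere (0 : V) 1) := by
    refine isPreconnected_sphere ?_ _ _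
    rw [← Module.finrank_eq_rank]
    exact_mod_cast (by omega : 1 < Module.finrank ℝ V)
  obtain ⟨x1, hx1, hmax⟩ := hcomp.exists_isMaxOn hne hcont
  obtain ⟨x2, hx2, hmin⟩ := hcomp.exists_isMinOn hne hcont
  have hlt : arg (g x1) - arg (g x2) < Real.pi := by
    by_contra hc
    push Not at hc
    obtain ⟨x3, hx3, h3⟩ := hconn.intermediate_value hx2 hx1 hcont
      (show arg (g x1) - Real.pi ∈ Set.Icc (arg (g x2)) (arg (g x1)) from
        ⟨by linarith, by linarith [Real.pi_pos]⟩)
    simp only at h3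
    have h4 : g x3 / g x1 ∈ slitPlane := by
      have : g x3 / g x1 = φ x3 / φ x1 := by
        simp only [hg]
        have := h0 x0 hx0
        have := h0 x1 (hs0 x1 hx1)
        field_simp
      rw [this]
      exact hopp x1 x3 (hs0 x1 hx1) (hs0 x3 hx3)
    have hg1 : g x1 ≠ 0 := div_ne_zero (h0 x1 (hs0 x1 hx1)) (h0 x0 hx0)
    have h5 : g x3 / g x1 = ((- (‖g x3‖ / ‖g x1‖) : ℝ) : ℂ) := by
      rw [div_eq_iff hg1]
      conv_lhs => rw [← Complex.norm_mul_exp_arg_mul_I (g x3), h3]
      conv_rhs => rw [← Complex.norm_mul_exp_arg_mul_I (g x1)]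
      have h6 : Complex.exp (((arg (g x1) - Real.pi : ℝ) : ℂ) * I) =
          - Complex.exp ((arg (g x1) : ℂ) * I) := by
        have : (((arg (g x1) - Real.pi : ℝ) : ℂ) * I) = (arg (g x1) : ℂ) * I - Real.pi * I := by
          push_cast; ring
        rw [this, Complex.exp_sub, Complex.exp_pi_mul_I]
        ring
      rw [h6]
      have h7 : ((‖g x1‖ : ℝ) : ℂ) ≠ 0 := by
        exact_mod_cast norm_ne_zero_iff.2 hg1
      simp only [norm_mul, Complex.norm_real, norm_norm, Complex.norm_exp_ofReal_mul_I, mul_one]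
      push_cast
      field_simp
    rw [h5] at h4
    have h8 : ((- (‖g x3‖ / ‖g x1‖) : ℝ) : ℂ) ∈ slitPlane ↔ 0 < - (‖g x3‖ / ‖g x1‖) :=
      Complex.ofReal_mem_slitPlane
    have h9 := h8.1 h4
    have h10 : 0 ≤ ‖g x3‖ / ‖g x1‖ := by positivity
    linarith
  set μ : ℝ := (arg (g x1) + arg (g x2)) / 2 with hμ
  set w : ℂ := Complex.exp (((-μ : ℝ) : ℂ) * I) / φ x0 with hw
  have hpos : ∀ x ∈ sphere (0 : V) 1, 0 < (φ x * w).re := by
    intro x hx
    have h1 : φ x * w = ((‖g x‖ : ℝ) : ℂ) * Complex.exp (((arg (g x) - μ : ℝ) : ℂ) * I) := by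
      have h2 : φ x * w = g x * Complex.exp (((-μ : ℝ) : ℂ) * I) := by
        simp only [hw, hg]; ring
      rw [h2]
      conv_lhs => rw [← Complex.norm_mul_exp_arg_mul_I (g x)]
      have h3 : (((arg (g x) - μ : ℝ) : ℂ) * I) = (arg (g x) : ℂ) * I + ((-μ : ℝ) : ℂ) * I := by
        push_cast; ring
      rw [h3, Complex.exp_add]
      ring
    rw [h1, Complex.re_ofReal_mul, Complex.exp_ofReal_mul_I_re]
    have hgx : g x ≠ 0 := div_ne_zero (h0 x (hs0 x hx)) (h0 x0 hx0)
    refine mul_pos (norm_pos_iff.2 hgx) (Real.cos_pos_of_mem_Ioo ⟨?_, ?_⟩)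
    · have : arg (g x2) ≤ arg (g x) := hmin hx
      rw [hμ]; linarith
    · have : arg (g x) ≤ arg (g x1) := hmax hx
      rw [hμ]; linarith
  refine ⟨w.re, - w.im, fun x hx => ?_⟩
  have hx' : ‖x‖ ≠ 0 := norm_ne_zero_iff.2 hx
  have h1 := hpos (‖x‖⁻¹ • x) (by simp [norm_smul, inv_mul_cancel₀ hx'])
  rw [hsc, mul_assoc, Complex.re_ofReal_mul, Complex.mul_re, hre, him] at h1
  have h2 : 0 < ‖x‖⁻¹ * ‖x‖⁻¹ := by positivity
  have h3 := (pos_iff_pos_of_mul_pos h1).1 h2
  linarith

end Pool.Agent.U474.KN
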