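import Pool.Agent.U474.KN.Qua

/-!
# Final assembly
-/

set_option autoImplicit false

namespace Pool.Agent.U474.KN

open Pool.Agent.W666.GB Pool.Agent.W669.HD Pool.Agent.W688.HD Pool.Agent.Y195.HF Finset

variable {m : ℕ} {V : Type} [NormedAddCommGroup V] [InnerProductSpace ℝ V]

theorem skew_zero : SkewForm (fun _ _ : V => (0 : ℝ)) :=
  ⟨fun _ _ _ => by simp, fun _ _ _ => by simp, fun _ _ => by simp⟩

/-- nonpositive curvature operator -/
theorem bound_op (e : OrthonormalBasis (Fin m × Bool) ℝ V) {K : V → V → V → V → ℝ}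
    (hK : AlgCurv K) (h : OpNonneg K) : roundGB m 0 ≤ (-1) ^ m * gbc e (negT K) := by
  refine two_skew e (Pool.Agent.Y195.HF.neg_curv hK) le_rfl ⟨_, _, skew_zero, skew_zero, ?_⟩
  have : negT (addT (addT (addT (negT K) fun x y z w => 0 * unitT x y z w)
      (skewCurv fun _ _ => 0)) (skewCurv fun _ _ => 0)) = K := by
    funext x y z w
    simp [negT, addT, skewCurv]
  rw [this]
  exact h

/-- **Codimension two, any signature.** -/
theorem codim_two_bound (e : OrthonormalBasis (Fin m × Bool) ℝ V) {A B : V → V → ℝ}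
    (hA : SymForm A) (hB : SymForm B) (a b c : ℝ) {δ : ℝ} (hδ : 0 ≤ δ)
    (h : SecGe (gauss2 a b c A B) δ) :
    roundGB m δ ≤ (-1) ^ m * gbc e (negT (gauss2 a b c A B)) := by
  rcases le_or_gt m 1 with hm | hm
  · exact small_bound (by omega) e (gauss2_curv hA hB a b c) hδ h
  rcases normal_form hA hB a b c with ⟨P, Q, hP, hQ, hE⟩ | ⟨-, -, P, Q, hP, hQ, hE⟩ |
    ⟨-, -, P, Q, hP, hQ, hE⟩
  · rw [hE] at h ⊢
    rcases hδ.eq_or_lt with h1 | h1
    · subst h1
      exact bound_op e (gauss2_curv hP hQ _ _ _) (op_kn hP hQ h)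
    · exact bound_kn e hP hQ h1 (by omega) h
  · rw [hE] at h ⊢
    rcases hδ.eq_or_lt with h1 | h1
    · subst h1
      exact bound_op e (gauss2_curv hP hQ _ _ _) (op_def hP hQ h)
    · exact bound_pos e hP hQ h1 (by omega) h
  · rw [hE] at h ⊢
    exact bound_neg e hP hQ hδ (by omega) h

/-- curvature tensors which are diagonal in a basis, not necessarily orthonormal -/
def ObliquelyPure (R : V → V → V → V → ℝ) : Prop :=
  AlgCurv R ∧ ∃ (ι : Type) (v : Module.Basis ι ℝ V), ∀ i j k l, s(i, j) ≠ s(k, l) →
    R (v i) (v j) (v k) (v l) = 0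

theorem pure_unit {ι : Type} [DecidableEq ι] {K : V → V → V → V → ℝ} (hK : AlgCurv K) {v : ι → V}
    (h : ∀ i j k l, s(i, j) ≠ s(k, l) → K (v i) (v j) (v k) (v l) = 0) (i j k l : ι) :
    K (v i) (v j) (v k) (v l) = K (v i) (v j) (v i) (v j) * unitCurv i j k l := by
  have hself : ∀ x z w : V, K x x z w = 0 := fun x z w => by
    have := hK.anti x x z w
    linarith
  have h34 : ∀ x y z w : V, K x y w z = -K x y z w := fun x y z w => by
    rw [← hK.pair x y w z, ← hK.pair x y z w, hK.anti z w]
  by_cases hij : i = j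
  · subst hij
    rw [hself, hself, zero_mul]
  by_cases hs : s(i, j) = s(k, l)
  · rcases Sym2.eq_iff.1 hs with ⟨h1, h2⟩ | ⟨h1, h2⟩
    · subst h1 h2
      simp [unitCurv, hij, Ne.symm hij]
    · subst h1 h2
      rw [h34]
      simp [unitCurv, hij, Ne.symm hij]
  · rw [h i j k l hs]
    have : unitCurv i j k l = 0 := by
      simp only [unitCurv]
      by_cases h1 : i = k
      · have h2 : j ≠ l := fun h2 => hs (by rw [h1, h2])
        by_cases h3 : i = l
        · have h4 : j ≠ k := fun h4 => hij (by rw [h1, h4])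
          simp [h2, h4]
        · simp [h2, h3]
      · by_cases h3 : i = l
        · have h4 : j ≠ k := fun h4 => hs (by rw [h3, h4]; exact Sym2.eq_swap)
          simp [h1, h4]
        · simp [h1, h3]
    rw [this, mul_zero]

/-- **Obliquely pure tensors.** -/
theorem oblique_bound (e : OrthonormalBasis (Fin m × Bool) ℝ V) {R : V → V → V → V → ℝ}
    (hR : ObliquelyPure R) {δ : ℝ} (hδ : 0 ≤ δ) (h : SecGe (negT R) δ) :
    roundGB m δ ≤ (-1) ^ m * gbc e R := by
  classical
  obtain ⟨hRc, ι, v, hv⟩ := hR
  have hfin : FiniteDimensional ℝ V := e.toBasis.finiteDimensional_of_finite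
  let f : ι ≃ Fin m × Bool := v.indexEquiv e.toBasis
  let v' : Module.Basis (Fin m × Bool) ℝ V := v.reindex f
  refine round_le e ?_
  refine pure_bound e (Pool.Agent.Y195.HF.neg_curv hRc) hδ (fun i => v' i) v'.linearIndependent ?_ h
  intro i j k l
  refine pure_unit (Pool.Agent.Y195.HF.neg_curv hRc) (fun i j k l hs => ?_) i j k l
  simp only [negT, v', Module.Basis.reindex_apply]
  rw [hv, neg_zero]
  intro hc
  apply hs
  have h1 := congrArg (Sym2.map f) hc
  simpa using h1

/-- expansion in the first argument -/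
theorem expand1 {K : V → V → V → V → ℝ} (hK : AlgCurv K) {ι : Type} [Fintype ι] (c : ι → ℝ)
    (v : ι → V) (y z w : V) : K (∑ i, c i • v i) y z w = ∑ i, c i * K (v i) y z w := by
  classical
  have h0 : K 0 y z w = 0 := by
    have := hK.smul 0 0 y z w
    simpa using this
  have : ∀ S : Finset ι, K (∑ i ∈ S, c i • v i) y z w = ∑ i ∈ S, c i * K (v i) y z w := by
    intro S
    induction S using Finset.induction_on with
    | empty => simpa using h0
    | insert a S ha ih => rw [Finset.sum_insert ha, Finset.sum_insert ha, hK.add, hK.smul, ih]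
  exact this _

/-- Obliquely pure tensors with nonnegative diagonal are nonnegative on all bivectors. -/
theorem op_pure {K : V → V → V → V → ℝ} (hK : AlgCurv K) {ι : Type} [Fintype ι] [DecidableEq ι]
    (v : Module.Basis ι ℝ V)
    (hd : ∀ i j k l, K (v i) (v j) (v k) (v l) = K (v i) (v j) (v i) (v j) * unitCurv i j k l)
    (hn : ∀ i j, 0 ≤ K (v i) (v j) (v i) (v j)) : OpNonneg K := by
  have e1 : ∀ x y z w, K x y z w = ∑ i, ∑ j, K (v i) (v j) (v i) (v j) *
      (v.repr x i * v.repr y j * (v.repr z i * v.repr w j - v.repr z j * v.repr w i)) := by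
    intro x y z w
    have h1 : K x y z w = ∑ i, v.repr x i * K (v i) y z w := by
      conv_lhs => rw [← v.sum_repr x]
      rw [expand1 hK]
    have h2 : ∀ i, K (v i) y z w = ∑ j, v.repr y j * K (v i) (v j) z w := by
      intro i
      rw [hK.anti]
      conv_lhs => rw [← v.sum_repr y]
      rw [expand1 hK, ← Finset.sum_neg_distrib]
      refine Finset.sum_congr rfl fun j _ => ?_
      rw [hK.anti (v i) (v j)]
      ring
    have h3 : ∀ i j, K (v i) (v j) z w = K (v i) (v j) (v i) (v j) *
        (v.repr z i * v.repr w j - v.repr z j * v.repr w i) := by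
      intro i j
      have h4 : ∀ x y, K x y z w = ∑ k, v.repr z k * K x y (v k) w := by
        intro x y
        rw [← hK.pair]
        conv_lhs => rw [← v.sum_repr z]
        rw [expand1 hK]
        refine Finset.sum_congr rfl fun j _ => ?_
        rw [hK.pair]
      have h5 : ∀ x y k, K x y (v k) w = ∑ l, v.repr w l * K x y (v k) (v l) := by
        intro x y k
        rw [← hK.pair, hK.anti]
        conv_lhs => rw [← v.sum_repr w]
        rw [expand1 hK, ← Finset.sum_neg_distrib]
        refine Finset.sum_congr rfl fun j _ => ?_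
        rw [← hK.pair x y, hK.anti (v k) (v j)]
        ring
      have h10 : K (v i) (v j) z w = ∑ k, v.repr z k * ∑ l, v.repr w l *
          (K (v i) (v j) (v i) (v j) * unitCurv i j k l) := by
        rw [h4]
        refine Finset.sum_congr rfl fun k _ => ?_
        rw [h5]
        congr 1
        refine Finset.sum_congr rfl fun l _ => ?_
        rw [hd i j k l]
      rw [h10]
      generalize K (v i) (v j) (v i) (v j) = κ
      simp only [unitCurv, mul_sub, Finset.sum_sub_distrib]
      have h6 : ∀ (p : ι → ℝ) (i : ι), ∑ k, p k * (if i = k then (1 : ℝ) else 0) = p i := by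
        intro p i
        rw [Finset.sum_eq_single i]
        · simp
        · intro b _ hb; rw [if_neg (Ne.symm hb), mul_zero]
        · intro h; exact absurd (Finset.mem_univ _) h
      have h7 : ∑ k, v.repr z k * ∑ l, v.repr w l * (κ *
          ((if i = k then (1 : ℝ) else 0) * (if j = l then 1 else 0))) =
          κ * (v.repr z i * v.repr w j) := by
        have : ∀ k, v.repr z k * ∑ l, v.repr w l * (κ *
          ((if i = k then (1 : ℝ) else 0) * (if j = l then 1 else 0))) =
          (κ * v.repr w j * v.repr z k) * (if i = k then 1 else 0) := by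
          intro k
          have h8 := h6 (fun l => v.repr w l) j
          rw [Finset.mul_sum]
          have h9 : ∀ l, v.repr z k * (v.repr w l * (κ *
              ((if i = k then (1 : ℝ) else 0) * (if j = l then 1 else 0)))) =
              (κ * v.repr z k * (if i = k then 1 else 0)) *
                (v.repr w l * (if j = l then 1 else 0)) := fun l => by ring
          simp only [h9]
          rw [← Finset.mul_sum, h8]
          ring
        simp only [this]
        rw [h6]; ring
      have h7' : ∑ k, v.repr z k * ∑ l, v.repr w l * (κ *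
          ((if i = l then (1 : ℝ) else 0) * (if j = k then 1 else 0))) =
          κ * (v.repr z j * v.repr w i) := by
        have : ∀ k, v.repr z k * ∑ l, v.repr w l * (κ *
          ((if i = l then (1 : ℝ) else 0) * (if j = k then 1 else 0))) =
          (κ * v.repr w i * v.repr z k) * (if j = k then 1 else 0) := by
          intro k
          have h8 := h6 (fun l => v.repr w l) i
          rw [Finset.mul_sum]
          have h9 : ∀ l, v.repr z k * (v.repr w l * (κ *
              ((if i = l then (1 : ℝ) else 0) * (if j = k then 1 else 0)))) =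
              (κ * v.repr z k * (if j = k then 1 else 0)) *
                (v.repr w l * (if i = l then 1 else 0)) := fun l => by ring
          simp only [h9]
          rw [← Finset.mul_sum, h8]
          ring
        simp only [this]
        rw [h6]; ring
      rw [h7, h7']
    rw [h1]
    refine Finset.sum_congr rfl fun i _ => ?_
    rw [h2, Finset.mul_sum]
    refine Finset.sum_congr rfl fun j _ => ?_
    rw [h3]
    ring
  have hsym : ∀ i j, K (v j) (v i) (v j) (v i) = K (v i) (v j) (v i) (v j) := by
    intro i j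
    rw [hK.anti, ← hK.pair, hK.anti]
    ring
  have e2 : ∀ x y z w, K x y z w = 1 / 2 * ∑ i, ∑ j, K (v i) (v j) (v i) (v j) *
      ((v.repr x i * v.repr y j - v.repr x j * v.repr y i) *
        (v.repr z i * v.repr w j - v.repr z j * v.repr w i)) := by
    intro x y z w
    have h1 : ∑ i, ∑ j, K (v i) (v j) (v i) (v j) *
        (v.repr x j * v.repr y i * (v.repr z i * v.repr w j - v.repr z j * v.repr w i)) =
        - K x y z w := by
      rw [Finset.sum_comm, e1, ← Finset.sum_neg_distrib]
      refine Finset.sum_congr rfl fun i _ => ?_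
      rw [← Finset.sum_neg_distrib]
      refine Finset.sum_congr rfl fun j _ => ?_
      rw [hsym]; ring
    have h2 : ∑ i, ∑ j, K (v i) (v j) (v i) (v j) *
      ((v.repr x i * v.repr y j - v.repr x j * v.repr y i) *
        (v.repr z i * v.repr w j - v.repr z j * v.repr w i)) = 2 * K x y z w := by
      have h3 : ∀ i j, K (v i) (v j) (v i) (v j) *
          ((v.repr x i * v.repr y j - v.repr x j * v.repr y i) *
          (v.repr z i * v.repr w j - v.repr z j * v.repr w i)) =
          K (v i) (v j) (v i) (v j) *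
          (v.repr x i * v.repr y j * (v.repr z i * v.repr w j - v.repr z j * v.repr w i)) -
          K (v i) (v j) (v i) (v j) *
          (v.repr x j * v.repr y i * (v.repr z i * v.repr w j - v.repr z j * v.repr w i)) :=
        fun i j => by ring
      simp only [h3, Finset.sum_sub_distrib]
      rw [h1, ← e1]; ring
    rw [h2]; ring
  intro n x y
  have h1 : ∑ a, ∑ b, K (x a) (y a) (x b) (y b) = 1 / 2 * ∑ i, ∑ j,
      K (v i) (v j) (v i) (v j) *
        (∑ a, (v.repr (x a) i * v.repr (y a) j - v.repr (x a) j * v.repr (y a) i)) ^ 2 := by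
    have h0 : ∑ a, ∑ b, K (x a) (y a) (x b) (y b) = ∑ a, ∑ b, (1 / 2 * ∑ i, ∑ j,
        K (v i) (v j) (v i) (v j) *
        ((v.repr (x a) i * v.repr (y a) j - v.repr (x a) j * v.repr (y a) i) *
        (v.repr (x b) i * v.repr (y b) j - v.repr (x b) j * v.repr (y b) i))) :=
      Finset.sum_congr rfl fun a _ => Finset.sum_congr rfl fun b _ => e2 _ _ _ _
    rw [h0]
    simp only [← Finset.mul_sum]
    congr 1
    have h2 : ∀ a : Fin n, ∑ b : Fin n, ∑ i, ∑ j, K (v i) (v j) (v i) (v j) *
        ((v.repr (x a) i * v.repr (y a) j - v.repr (x a) j * v.repr (y a) i) *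
        (v.repr (x b) i * v.repr (y b) j - v.repr (x b) j * v.repr (y b) i)) =
        ∑ i, ∑ j, K (v i) (v j) (v i) (v j) *
        ((v.repr (x a) i * v.repr (y a) j - v.repr (x a) j * v.repr (y a) i) *
        ∑ b, (v.repr (x b) i * v.repr (y b) j - v.repr (x b) j * v.repr (y b) i)) := by
      intro a
      rw [Finset.sum_comm]
      refine Finset.sum_congr rfl fun i _ => ?_
      rw [Finset.sum_comm]
      refine Finset.sum_congr rfl fun j _ => ?_
      rw [← Finset.mul_sum, ← Finset.mul_sum]
    simp only [h2]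
    rw [Finset.sum_comm]
    refine Finset.sum_congr rfl fun i _ => ?_
    rw [Finset.sum_comm]
    refine Finset.sum_congr rfl fun j _ => ?_
    rw [← Finset.mul_sum, ← Finset.sum_mul, sq]
  rw [h1]
  refine mul_nonneg (by norm_num) (Finset.sum_nonneg fun i _ => Finset.sum_nonneg fun j _ => ?_)
  exact mul_nonneg (hn i j) (sq_nonneg _)

/-- sectional curvatures at most `-δ` -/
def SecLe (R : V → V → V → V → ℝ) (δ : ℝ) : Prop := ∀ x y : V, R x y x y ≤ -(δ * unitT x y x y)

/-- The curvature tensor is given by a Gauss equation of codimension two, for a normal plane with an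
inner product of any signature (degenerate ones included). -/
def CodimTwo (R : V → V → V → V → ℝ) : Prop :=
  ∃ (a b c : ℝ) (A B : V → V → ℝ), SymForm A ∧ SymForm B ∧ R = gauss2 a b c A B

/-- The same, for a normal plane whose inner product is not positive definite. -/
def CodimTwoN (R : V → V → V → V → ℝ) : Prop :=
  ∃ (a b c : ℝ) (A B : V → V → ℝ), SymForm A ∧ SymForm B ∧ ¬ (0 < a ∧ b ^ 2 < a * c) ∧
    R = gauss2 a b c A B

/-- The class: sectional curvatures at most `-δ` and a Gauss equation of codimension two, or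
sectional curvatures at most `-δ` and diagonal in some basis, or a sum of a tensor in the class
`TwoSkew δ` and any number of tensors of these kinds with nonpositive sectional curvatures. -/
def Good (δ : ℝ) (R : V → V → V → V → ℝ) : Prop :=
  (SecLe R δ ∧ (CodimTwo R ∨ ObliquelyPure R)) ∨
  ∃ (n : ℕ) (T : Fin n → V → V → V → V → ℝ) (P : V → V → V → V → ℝ),
    AlgCurv P ∧ TwoSkew δ P ∧ (∀ i, SecLe (T i) 0 ∧ (CodimTwoN (T i) ∨ ObliquelyPure (T i))) ∧
    R = fun x y z w => P x y z w + ∑ i, T i x y z w

omit [NormedAddCommGroup V] [InnerProductSpace ℝ V] in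
theorem negT_gauss2 (a b c : ℝ) (A B : V → V → ℝ) :
    negT (gauss2 a b c A B) = gauss2 (-a) (-b) (-c) A B := by
  funext x y z w
  simp only [negT, gauss2]
  ring

theorem sec_neg {R : V → V → V → V → ℝ} {δ : ℝ} (h : SecLe R δ) : SecGe (negT R) δ := by
  intro x y
  have := h x y
  simp only [negT]
  linarith

theorem weinstein {A B : V → V → ℝ} {a b c : ℝ} (hA : SymForm A) (hB : SymForm B)
    (hq : ¬ (0 < a ∧ b ^ 2 < a * c)) (h : SecLe (gauss2 a b c A B) 0) :
    OpNonneg (negT (gauss2 a b c A B)) := by
  have h1 := sec_neg h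
  rw [negT_gauss2] at h1 ⊢
  refine op_gauss2 hA hB (fun ⟨h2, h3⟩ => hq ⟨by linarith, by nlinarith⟩) h1

theorem codimTwo_curv {R : V → V → V → V → ℝ} (h : CodimTwo R) : AlgCurv R := by
  obtain ⟨a, b, c, A, B, hA, hB, rfl⟩ := h
  exact gauss2_curv hA hB a b c

theorem codimTwoN_curv {R : V → V → V → V → ℝ} (h : CodimTwoN R) : AlgCurv R := by
  obtain ⟨a, b, c, A, B, hA, hB, -, rfl⟩ := h
  exact gauss2_curv hA hB a b c

theorem unit_zero {ι : Type} [DecidableEq ι] {i j k l : ι} (hij : i ≠ j) (hs : s(i, j) ≠ s(k, l)) :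
    (unitCurv i j k l : ℝ) = 0 := by
  simp only [unitCurv]
  by_cases h1 : i = k
  · have h2 : j ≠ l := fun h2 => hs (by rw [h1, h2])
    by_cases h3 : i = l
    · have h4 : j ≠ k := fun h4 => hij (by rw [h1, h4])
      simp [h2, h4]
    · simp [h2, h3]
  · by_cases h3 : i = l
    · have h4 : j ≠ k := fun h4 => hs (by rw [h3, h4]; exact Sym2.eq_swap)
      simp [h1, h4]
    · simp [h1, h3]

theorem oblique_of_basis [FiniteDimensional ℝ V] {P Q : V → V → ℝ}
    (hP : SymForm P) (hQ : SymForm Q) (a b c : ℝ)
    (hb : ∃ v : Module.Basis (Fin (Module.finrank ℝ V)) ℝ V,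
      (∀ i j, i ≠ j → hP.toL (v i) (v j) = 0) ∧ (∀ i j, i ≠ j → hQ.toL (v i) (v j) = 0)) :
    ObliquelyPure (gauss2 a b c P Q) := by
  obtain ⟨v, h1, h2⟩ := hb
  have hK := gauss2_curv hP hQ a b c
  refine ⟨hK, _, v, fun i j k l hs => ?_⟩
  rw [diag_gauss2 a b c (fun i => v i) h1 h2 i j k l]
  by_cases hij : i = j
  · subst hij
    have := hK.anti (v i) (v i) (v i) (v i)
    rw [show gauss2 a b c P Q (v i) (v i) (v i) (v i) = 0 by linarith, zero_mul]
  · rw [unit_zero hij hs, mul_zero]

theorem neg_oblique {R : V → V → V → V → ℝ} (h : ObliquelyPure R) : ObliquelyPure (negT R) := by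
  obtain ⟨h1, ι, v, h2⟩ := h
  refine ⟨Pool.Agent.Y195.HF.neg_curv h1, ι, v, fun i j k l hs => ?_⟩
  simp only [negT, h2 i j k l hs, neg_zero]

/-- In dimensions at least four a tensor of codimension two with sectional curvatures bounded above
by a negative constant is diagonal in some basis. -/
theorem diagonal [FiniteDimensional ℝ V] (hn : 4 ≤ Module.finrank ℝ V) {R : V → V → V → V → ℝ}
    {δ : ℝ} (hδ : 0 < δ) (hR : CodimTwo R) (h : SecLe R δ) : ObliquelyPure R := by
  obtain ⟨a, b, c, A, B, hA, hB, rfl⟩ := hR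
  have h1 := sec_neg h
  suffices h3 : ObliquelyPure (negT (gauss2 a b c A B)) by
    have := neg_oblique h3
    rwa [negT_negT] at this
  rw [negT_gauss2] at h1 ⊢
  generalize -a = a' at h1 ⊢
  generalize -b = b' at h1 ⊢
  generalize -c = c' at h1 ⊢
  rcases normal_form hA hB a' b' c' with ⟨P, Q, hP, hQ, hE⟩ | ⟨-, -, P, Q, hP, hQ, hE⟩ |
    ⟨-, -, P, Q, hP, hQ, hE⟩
  · rw [hE] at h1 ⊢
    exact oblique_of_basis hP hQ _ _ _ (basis_kn hP hQ hδ hn h1)
  · rw [hE] at h1 ⊢
    exact oblique_of_basis hP hQ _ _ _ (basis_pos hP hQ hδ (by omega) h1)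
  · rw [hE] at h1
    exact (no_neg hP hQ hδ hn h1).elim

theorem op_oblique {R : V → V → V → V → ℝ} [FiniteDimensional ℝ V] (hR : ObliquelyPure R)
    (h : SecLe R 0) : OpNonneg (negT R) := by
  classical
  obtain ⟨h1, ι, v, h2⟩ := neg_oblique hR
  have hι : Finite ι := Module.Finite.finite_basis v
  have : Fintype ι := Fintype.ofFinite ι
  refine op_pure h1 v (fun i j k l => pure_unit h1 (fun i j k l hs => h2 i j k l hs) i j k l)
    fun i j => ?_
  have h3 := sec_neg h (v i) (v j)
  linarith

theorem good_bound (e : OrthonormalBasis (Fin m × Bool) ℝ V) {R : V → V → V → V → ℝ} {δ : ℝ}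
    (hδ : 0 ≤ δ) (h : Good δ R) : roundGB m δ ≤ (-1) ^ m * gbc e R := by
  have hfin : FiniteDimensional ℝ V := e.toBasis.finiteDimensional_of_finite
  rcases h with ⟨h1, h2 | h2⟩ | ⟨n, T, P, hP, hS, hT, rfl⟩
  · obtain ⟨a, b, c, A, B, hA, hB, rfl⟩ := h2
    have h3 := sec_neg h1
    rw [negT_gauss2] at h3
    have h4 := codim_two_bound e hA hB (-a) (-b) (-c) hδ h3
    rwa [← negT_gauss2, negT_negT] at h4
  · exact oblique_bound e h2 hδ (sec_neg h1)
  · have hc : ∀ i, AlgCurv (T i) := fun i => by
      rcases (hT i).2 with h | h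
      · exact codimTwoN_curv h
      · exact h.1
    have ho : ∀ i, OpNonneg (negT (T i)) := fun i => by
      rcases hT i with ⟨h0, h | h⟩
      · obtain ⟨a, b, c, A, B, hA, hB, hq, hE⟩ := h
        rw [hE] at h0 ⊢
        exact weinstein hA hB hq h0
      · exact op_oblique h h0
    obtain ⟨A, B, hA, hB, hn⟩ := hS
    refine two_skew e ?_ hδ ⟨A, B, hA, hB, ?_⟩
    · constructor
      · intro x x' y z w
        simp only [hP.add, (hc _).add, Finset.sum_add_distrib]; ring
      · intro t x y z w
        simp only [hP.smul, (hc _).smul, ← Finset.mul_sum]; ring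
      · intro x y z w
        rw [hP.anti, Finset.sum_congr rfl fun i _ => (hc i).anti x y z w,
          Finset.sum_neg_distrib]; ring
      · intro x y z w
        rw [hP.pair, Finset.sum_congr rfl fun i _ => (hc i).pair x y z w]
      · intro x y z w
        have h3 := hP.bianchi x y z w
        have h4 : ∑ i, T i x y z w + ∑ i, T i y z x w + ∑ i, T i z x y w = 0 := by
          rw [← Finset.sum_add_distrib, ← Finset.sum_add_distrib]
          exact Finset.sum_eq_zero fun i _ => (hc i).bianchi x y z w
        linarith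
    · intro k x y
      have h1 := hn k x y
      have h2 : 0 ≤ ∑ i, ∑ a, ∑ b, negT (T i) (x a) (y a) (x b) (y b) :=
        Finset.sum_nonneg fun i _ => ho i k x y
      have h3 : ∑ i, ∑ a, ∑ b, negT (T i) (x a) (y a) (x b) (y b) =
          ∑ a, ∑ b, ∑ i, negT (T i) (x a) (y a) (x b) (y b) := by
        rw [Finset.sum_comm]
        refine Finset.sum_congr rfl fun a _ => ?_
        rw [Finset.sum_comm]
      rw [h3] at h2
      have h4 := add_nonneg h1 h2
      rw [← Finset.sum_add_distrib] at h4
      refine h4.trans (le_of_eq (Finset.sum_congr rfl fun a _ => ?_))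
      rw [← Finset.sum_add_distrib]
      refine Finset.sum_congr rfl fun b _ => ?_
      simp only [negT, addT, Finset.sum_neg_distrib]
      ring

theorem field_good {M : Type} [MeasurableSpace M] (μ : MeasureTheory.Measure M)
    (K : CurvField m M) (h : ∀ p, Good 0 (K.R p)) :
    0 ≤ (-1) ^ m * ∫ p, K.gb p ∂μ := by
  rw [← MeasureTheory.integral_const_mul]
  refine MeasureTheory.integral_nonneg fun p => ?_
  exact (roundGB_nonneg le_rfl).trans (good_bound (K.e p) le_rfl (h p))

theorem field_good' {M : Type} [MeasurableSpace M] (μ : MeasureTheory.Measure M)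
    [MeasureTheory.IsFiniteMeasure μ] (K : CurvField m M) (hi : MeasureTheory.Integrable K.gb μ)
    {δ : ℝ} (hδ : 0 ≤ δ) (h : ∀ p, Good δ (K.R p)) :
    roundGB m δ * μ.real Set.univ ≤ (-1) ^ m * ∫ p, K.gb p ∂μ := by
  rw [← MeasureTheory.integral_const_mul]
  have h1 : roundGB m δ * μ.real Set.univ = ∫ _, roundGB m δ ∂μ := by
    rw [MeasureTheory.integral_const, smul_eq_mul, mul_comm]
  rw [h1]
  refine MeasureTheory.integral_mono (MeasureTheory.integrable_const _) (hi.const_mul _) fun p => ?_
  exact good_bound (K.e p) hδ (h p)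

end Pool.Agent.U474.KN
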