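import Pool.Agent.U474.KN.Op

/-!
# The Kulkarni–Nomizu product of two symmetric forms with a common isotropic vector
-/

set_option autoImplicit false

namespace Pool.Agent.U474.KN

open Finset

variable {V : Type*} [AddCommGroup V] [Module ℝ V]

variable {A B : V →ₗ[ℝ] V →ₗ[ℝ] ℝ}

theorem knL_comm (A B : V →ₗ[ℝ] V →ₗ[ℝ] ℝ) (x y z w : V) : knL A B x y z w = knL B A x y z w := by
  unfold knL; ring

theorem lin_zero {a b : ℝ} (h : ∀ t : ℝ, 0 ≤ a + t * b) : b = 0 := by
  by_contra hb
  have h1 := h (-(a + 1) / b)
  rw [div_mul_cancel₀ _ hb] at h1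
  linarith

/-- A form whose values satisfy the Cauchy–Schwarz inequality. -/
theorem op_square [FiniteDimensional ℝ V] {X : V →ₗ[ℝ] V →ₗ[ℝ] ℝ} (hX : ∀ x y, X x y = X y x)
    (h : ∀ x y, X x y ^ 2 ≤ X x x * X y y) : Op (knL X X) := by
  have hs : LinearMap.IsSymm X := ⟨fun x y => by simpa using hX x y⟩
  obtain ⟨v, hv⟩ := LinearMap.BilinForm.exists_orthogonal_basis hs
  have ho : ∀ i j, i ≠ j → X (v i) (v j) = 0 := fun i j hij => hv hij
  refine op_of_basis v ho ho fun i j _ => ?_
  have h1 := h (v i) (v j)
  nlinarith [sq_nonneg (X (v i) (v j))]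

/-- The first form has rank one. -/
theorem op_rank_one (hK : ∀ x y, 0 ≤ knL A B x y x y)
    {β : V →ₗ[ℝ] ℝ} {a : ℝ} (hA : ∀ x y, A x y = a * (β x * β y)) {w : V} (hw : β w = 1) :
    Op (knL A B) := by
  have e1 : ∀ x y z t, knL A B x y z t = a * B (β x • y - β y • x) (β z • t - β t • z) := by
    intro x y z t
    simp only [knL, hA, map_sub, map_smul, LinearMap.sub_apply, LinearMap.smul_apply, smul_eq_mul]
    ring
  intro n x y
  set ζ : V := ∑ i, (β (x i) • y i - β (y i) • x i) with hζ
  have h0 : β ζ = 0 := by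
    simp only [hζ, map_sum, map_sub, map_smul, smul_eq_mul]
    refine Finset.sum_eq_zero fun i _ => ?_
    ring
  have h1 : ∑ i, ∑ j, knL A B (x i) (y i) (x j) (y j) = a * B ζ ζ := by
    simp only [e1, ← Finset.mul_sum]
    congr 1
    simp only [hζ, map_sum, LinearMap.sum_apply]
    rw [Finset.sum_comm]
  have h2 := hK w ζ
  rw [e1, hw, h0] at h2
  rw [h1]
  simpa using h2

/-- The isotropic vector is in the kernel of the first form. -/
theorem op_kernel (hA : ∀ x y, A x y = A y x) (hB : ∀ x y, B x y = B y x)
    (hK : ∀ x y, 0 ≤ knL A B x y x y) {u : V} (hAu : A u = 0) (hBu : B u u = 0) (hB0 : B u ≠ 0) :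
    Op (knL A B) := by
  obtain ⟨w', hw'⟩ : ∃ w, B u w ≠ 0 := by
    by_contra hc
    push Not at hc
    exact hB0 (LinearMap.ext hc)
  set w : V := (B u w')⁻¹ • w' with hwd
  have hw : B u w = 1 := by
    rw [hwd, map_smul, smul_eq_mul, inv_mul_cancel₀ hw']
  have hA1 : ∀ y, A u y = 0 := fun y => by rw [hAu]; rfl
  have hA2 : ∀ y, A y u = 0 := fun y => by rw [hA]; exact hA1 y
  have star : ∀ x y, A x x * B u y = A x y * B u x := by
    intro x y
    have h1 : 2 * (A x x * B u y - A x y * B u x) = 0 := by
      refine lin_zero (a := knL A B x y x y) fun t => ?_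
      have h2 := hK x (y + t • u)
      have h3 : knL A B x (y + t • u) x (y + t • u) =
          knL A B x y x y + t * (2 * (A x x * B u y - A x y * B u x)) := by
        simp only [knL, map_add, map_smul, LinearMap.add_apply, LinearMap.smul_apply, smul_eq_mul,
          hA1, hA2, hB x u, hB y u, hBu]
        rw [hA y x]
        ring
      rw [h3] at h2
      exact h2
    linarith
  have hAw : ∀ x, A x w = A w w * B u x := by
    intro x
    have h1 := star w x
    rw [hw] at h1
    rw [hA x w]; linarith
  have hq : ∀ x, A x x = A w w * (B u x * B u x) := by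
    intro x
    have h1 := star x w
    rw [hw, hAw] at h1
    linarith
  have hpol : ∀ x y, A x y = A w w * (B u x * B u y) := by
    intro x y
    have h1 := hq (x + y)
    simp only [map_add, LinearMap.add_apply] at h1
    rw [hA y x, hq x, hq y] at h1
    linarith
  exact op_rank_one hK hpol hw

/-- The isotropic vector has opposite polar hyperplanes. -/
theorem op_opposite [FiniteDimensional ℝ V] (hA : ∀ x y, A x y = A y x)
    (hB : ∀ x y, B x y = B y x)
    (hK : ∀ x y, 0 ≤ knL A B x y x y) {u w : V} {c : ℝ} (hc : 0 < c) (hAu : A u u = 0)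
    (hw : A u w = 1) (hBu : ∀ x, B u x = - c * A u x) : Op (knL A B) := by
  have hA2 : ∀ x, A x u = A u x := fun x => hA x u
  have hB2 : ∀ x, B x u = - c * A u x := fun x => by rw [hB, hBu]
  have hBuu : B u u = 0 := by rw [hBu, hAu, mul_zero]
  -- the difference
  set N : V →ₗ[ℝ] V →ₗ[ℝ] ℝ := B - c • A with hN
  set P : V →ₗ[ℝ] V →ₗ[ℝ] ℝ := B + c • A with hP
  have hNv : ∀ x y, N x y = B x y - c * A x y := fun x y => by
    simp only [hN, LinearMap.sub_apply, LinearMap.smul_apply, smul_eq_mul]
  have hPv : ∀ x y, P x y = B x y + c * A x y := fun x y => by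
    simp only [hP, LinearMap.add_apply, LinearMap.smul_apply, smul_eq_mul]
  have hNs : ∀ x y, N x y = N y x := fun x y => by rw [hNv, hNv, hA, hB]
  have hPs : ∀ x y, P x y = P y x := fun x y => by rw [hPv, hPv, hA, hB]
  have hPu : ∀ x, P u x = 0 := fun x => by rw [hPv, hBu]; ring
  have hPu' : ∀ x, P x u = 0 := fun x => by rw [hPs]; exact hPu x
  -- the form N vanishes on the polar hyperplane
  have hz : ∀ x y, N (A u x • y - A u y • x) (A u x • y - A u y • x) = 0 := by
    intro x y
    have h1 : 2 * N (A u x • y - A u y • x) (A u x • y - A u y • x) = 0 := by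
      refine lin_zero (a := knL A B x y x y) fun t => ?_
      have h2 := hK (x + (t * A u x) • u) (y + (t * A u y) • u)
      have h3 : knL A B (x + (t * A u x) • u) (y + (t * A u y) • u)
          (x + (t * A u x) • u) (y + (t * A u y) • u) =
          knL A B x y x y + t * (2 * N (A u x • y - A u y • x) (A u x • y - A u y • x)) := by
        simp only [knL, hNv, map_add, map_sub, map_smul, LinearMap.add_apply, LinearMap.sub_apply,
          LinearMap.smul_apply, smul_eq_mul, hA2, hB2, hBu, hAu]
        rw [hA y x, hB y x]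
        ring
      rw [h3] at h2
      exact h2
    linarith
  have hN0 : ∀ h, A u h = 0 → N h h = 0 := by
    intro h hh
    have h1 := hz w h
    rw [hw, hh] at h1
    simpa using h1
  have hN1 : ∀ h h', A u h = 0 → A u h' = 0 → N h h' = 0 := by
    intro h h' h1 h2
    have h3 := hN0 (h + h') (by rw [map_add, h1, h2, add_zero])
    simp only [map_add, LinearMap.add_apply] at h3
    rw [hN0 h h1, hN0 h' h2, hNs h' h] at h3
    linarith
  set ν : V → ℝ := fun x => N x w - 1 / 2 * A u x * N w w with hν
  have hNd : ∀ x y, N x y = A u x * ν y + A u y * ν x := by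
    intro x y
    have h1 := hN1 (x - A u x • w) (y - A u y • w) (by rw [map_sub, map_smul, hw]; simp)
      (by rw [map_sub, map_smul, hw]; simp)
    simp only [map_sub, map_smul, LinearMap.sub_apply, LinearMap.smul_apply, smul_eq_mul] at h1
    rw [hNs w y] at h1
    simp only [hν]
    linarith
  have hνadd : ∀ x y, ν (x + y) = ν x + ν y := fun x y => by
    simp only [hν, map_add, LinearMap.add_apply]; ring
  have hνsmul : ∀ (t : ℝ) x, ν (t • x) = t * ν x := fun t x => by
    simp only [hν, map_smul, LinearMap.smul_apply, smul_eq_mul]; ring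
  have hνu : ν u = - (2 * c) := by
    simp only [hν, hNv, hBu, hAu, hw]; ring
  -- the identity
  have key : ∀ x y z t, 4 * c * knL A B x y z t = knL P P x y z t +
      2 * ((A u x * ν y - A u y * ν x) * (A u z * ν t - A u t * ν z)) := by
    intro x y z t
    have e1 : knL P P x y z t - knL N N x y z t = 4 * c * knL A B x y z t := by
      simp only [knL, hPv, hNv]; ring
    have e2 : knL N N x y z t =
        - (2 * ((A u x * ν y - A u y * ν x) * (A u z * ν t - A u t * ν z))) := by
      simp only [knL, hNd]; ring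
    rw [← e1, e2]; ring
  have hcs : ∀ x y, P x y ^ 2 ≤ P x x * P y y := by
    intro x y
    obtain ⟨s, t, hst⟩ : ∃ s t : ℝ, (A u x * ν y - A u y * ν x) +
        ν u * (t * A u x - s * A u y) = 0 := by
      by_cases h0 : A u x ^ 2 + A u y ^ 2 = 0
      · have h1 : A u x = 0 := by nlinarith [sq_nonneg (A u x), sq_nonneg (A u y)]
        have h2 : A u y = 0 := by nlinarith [sq_nonneg (A u x), sq_nonneg (A u y)]
        exact ⟨0, 0, by rw [h1, h2]; ring⟩
      · have hνu0 : ν u ≠ 0 := by rw [hνu]; linarith [hc.ne']; 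
        refine ⟨(A u x * ν y - A u y * ν x) * A u y / (ν u * (A u x ^ 2 + A u y ^ 2)),
          - ((A u x * ν y - A u y * ν x) * A u x / (ν u * (A u x ^ 2 + A u y ^ 2))), ?_⟩
        field_simp
        ring
    have h1 := hK (x + s • u) (y + t • u)
    have h2 := key (x + s • u) (y + t • u) (x + s • u) (y + t • u)
    have h3 : A u (x + s • u) * ν (y + t • u) - A u (y + t • u) * ν (x + s • u) = 0 := by
      rw [hνadd, hνadd, hνsmul, hνsmul]
      simp only [map_add, map_smul, smul_eq_mul, hAu]
      linarith [hst]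
    have h4 : knL P P (x + s • u) (y + t • u) (x + s • u) (y + t • u) =
        2 * (P x x * P y y - P x y ^ 2) := by
      simp only [knL, map_add, map_smul, LinearMap.add_apply, LinearMap.smul_apply, smul_eq_mul,
        hPu, hPu']
      rw [hPs y x]
      ring
    rw [h3, h4] at h2
    have h5 : 0 ≤ 4 * c * knL A B (x + s • u) (y + t • u) (x + s • u) (y + t • u) := by
      positivity
    rw [h2] at h5
    linarith
  have hPop := op_square hPs hcs
  intro n x y
  have h1 : 4 * c * ∑ a, ∑ b, knL A B (x a) (y a) (x b) (y b) =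
      (∑ a, ∑ b, knL P P (x a) (y a) (x b) (y b)) +
        2 * (∑ a, (A u (x a) * ν (y a) - A u (y a) * ν (x a))) ^ 2 := by
    rw [Finset.mul_sum]
    simp only [Finset.mul_sum, key, Finset.sum_add_distrib]
    congr 1
    rw [sq, Finset.sum_mul_sum]
    simp only [Finset.mul_sum]
  have h2 := hPop n x y
  have h3 : 0 ≤ 4 * c * ∑ a, ∑ b, knL A B (x a) (y a) (x b) (y b) := by
    rw [h1]; positivity
  have h4 : 0 < 4 * c := by positivity
  by_contra hneg
  push Not at hneg
  nlinarith

/-- **A common isotropic vector which is not in the common radical.** -/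
theorem op_of_isotropic [FiniteDimensional ℝ V] (hA : ∀ x y, A x y = A y x)
    (hB : ∀ x y, B x y = B y x) (hK : ∀ x y, 0 ≤ knL A B x y x y) {u : V}
    (hAu : A u u = 0) (hBu : B u u = 0) (hu : A u ≠ 0 ∨ B u ≠ 0) : Op (knL A B) := by
  have hK' : ∀ x y, 0 ≤ knL B A x y x y := fun x y => by rw [knL_comm]; exact hK x y
  have hsw : Op (knL B A) → Op (knL A B) := fun h n x y => by
    have := h n x y
    simpa only [knL_comm B A] using this
  by_cases hA0 : A u = 0
  · exact op_kernel hA hB hK hA0 hBu (hu.resolve_left fun h => h hA0)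
  obtain ⟨w', hw'⟩ : ∃ w, A u w ≠ 0 := by
    by_contra hc
    push Not at hc
    exact hA0 (LinearMap.ext hc)
  set w : V := (A u w')⁻¹ • w' with hwd
  have hw : A u w = 1 := by
    rw [hwd, map_smul, smul_eq_mul, inv_mul_cancel₀ hw']
  have hle : ∀ x, 0 ≤ - (A u x * B u x) := by
    intro x
    have h1 := hK u x
    have h2 : knL A B u x u x = 2 * (- (A u x * B u x)) := by
      simp only [knL, hAu, hBu]
      rw [hA x u, hB x u]; ring
    rw [h2] at h1
    linarith
  have hker : ∀ h, A u h = 0 → B u h = 0 := by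
    intro h hh
    have h1 : - B u h = 0 := by
      refine lin_zero (a := - B u w) fun t => ?_
      have h2 := hle (w + t • h)
      simp only [map_add, map_smul, smul_eq_mul, hw, hh] at h2
      linarith
    linarith
  have hprop : ∀ x, B u x = B u w * A u x := by
    intro x
    have h1 := hker (x - A u x • w) (by rw [map_sub, map_smul, hw]; simp)
    rw [map_sub, map_smul, smul_eq_mul] at h1
    linarith
  have hc0 : 0 ≤ - B u w := by
    have := hle w
    rw [hw] at this
    linarith
  rcases hc0.eq_or_lt with h0 | h0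
  · have h1 : B u = 0 := LinearMap.ext fun x => by
      rw [hprop, show B u w = 0 by linarith]; simp
    exact hsw (op_kernel hB hA hK' h1 hAu hA0)
  · exact op_opposite hA hB hK h0 hAu hw fun x => by rw [hprop x]; ring

end Pool.Agent.U474.KN
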