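import Mathlib

/-!
# The Kulkarni–Nomizu product of two symmetric forms: basic facts
-/

set_option autoImplicit false

namespace Pool.Agent.U474.KN

open Finset

variable {V : Type*} [AddCommGroup V] [Module ℝ V]

/-- The Kulkarni–Nomizu product of two bilinear maps. -/
def knL (A B : V →ₗ[ℝ] V →ₗ[ℝ] ℝ) (x y z w : V) : ℝ :=
  A x z * B y w + A y w * B x z - A x w * B y z - A y z * B x w

/-- nonnegative on all bivectors -/
def Op (K : V → V → V → V → ℝ) : Prop :=
  ∀ (n : ℕ) (x y : Fin n → V), 0 ≤ ∑ a, ∑ b, K (x a) (y a) (x b) (y b)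

variable {A B : V →ₗ[ℝ] V →ₗ[ℝ] ℝ}

theorem diag_apply {ι : Type*} [Fintype ι] [DecidableEq ι] (b : Module.Basis ι ℝ V)
    (h : ∀ i j, i ≠ j → A (b i) (b j) = 0) (x z : V) :
    A x z = ∑ i, A (b i) (b i) * (b.repr x i * b.repr z i) := by
  conv_lhs => rw [← b.sum_repr x, ← b.sum_repr z]
  simp only [map_sum, LinearMap.sum_apply, map_smul, LinearMap.smul_apply, smul_eq_mul]
  refine Finset.sum_congr rfl fun i _ => ?_
  rw [Finset.sum_eq_single i]
  · ring
  · intro j _ hj
    rw [h j i hj]; ring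
  · simp

theorem kn_diag {ι : Type*} [Fintype ι] [DecidableEq ι] (b : Module.Basis ι ℝ V)
    (hA : ∀ i j, i ≠ j → A (b i) (b j) = 0) (hB : ∀ i j, i ≠ j → B (b i) (b j) = 0)
    (x y z w : V) :
    knL A B x y z w = ∑ i, ∑ j, A (b i) (b i) * B (b j) (b j) *
      ((b.repr x i * b.repr y j - b.repr x j * b.repr y i) *
        (b.repr z i * b.repr w j - b.repr z j * b.repr w i)) := by
  unfold knL
  rw [diag_apply b hA x z, diag_apply b hA y w, diag_apply b hA x w, diag_apply b hA y z,
    diag_apply b hB x z, diag_apply b hB y w, diag_apply b hB x w, diag_apply b hB y z]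
  rw [Finset.sum_mul_sum, Finset.sum_mul_sum, Finset.sum_mul_sum, Finset.sum_mul_sum]
  rw [← Finset.sum_add_distrib, ← Finset.sum_sub_distrib, ← Finset.sum_sub_distrib]
  refine Finset.sum_congr rfl fun i _ => ?_
  rw [← Finset.sum_add_distrib, ← Finset.sum_sub_distrib, ← Finset.sum_sub_distrib]
  refine Finset.sum_congr rfl fun j _ => ?_
  ring

theorem op_of_basis {ι : Type*} [Fintype ι] [DecidableEq ι] (b : Module.Basis ι ℝ V)
    (hA : ∀ i j, i ≠ j → A (b i) (b j) = 0) (hB : ∀ i j, i ≠ j → B (b i) (b j) = 0)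
    (hq : ∀ i j, i ≠ j → 0 ≤ A (b i) (b i) * B (b j) (b j) + A (b j) (b j) * B (b i) (b i)) :
    Op (knL A B) := by
  intro n x y
  set S : ι → ι → ℝ := fun i j => ∑ a, (b.repr (x a) i * b.repr (y a) j -
    b.repr (x a) j * b.repr (y a) i) with hS
  have h1 : ∑ a, ∑ c, knL A B (x a) (y a) (x c) (y c) =
      ∑ i, ∑ j, A (b i) (b i) * B (b j) (b j) * (S i j) ^ 2 := by
    simp only [kn_diag b hA hB]
    have e1 : ∀ a : Fin n, (∑ c : Fin n, ∑ i, ∑ j, A (b i) (b i) * B (b j) (b j) *
        ((b.repr (x a) i * b.repr (y a) j - b.repr (x a) j * b.repr (y a) i) *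
        (b.repr (x c) i * b.repr (y c) j - b.repr (x c) j * b.repr (y c) i))) =
        ∑ i, ∑ j, A (b i) (b i) * B (b j) (b j) *
        ((b.repr (x a) i * b.repr (y a) j - b.repr (x a) j * b.repr (y a) i) * S i j) := by
      intro a
      rw [Finset.sum_comm]
      refine Finset.sum_congr rfl fun i _ => ?_
      rw [Finset.sum_comm]
      refine Finset.sum_congr rfl fun j _ => ?_
      rw [← Finset.mul_sum, ← Finset.mul_sum]
    simp only [e1]
    rw [Finset.sum_comm]
    refine Finset.sum_congr rfl fun i _ => ?_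
    rw [Finset.sum_comm]
    refine Finset.sum_congr rfl fun j _ => ?_
    rw [← Finset.mul_sum, ← Finset.sum_mul]
    simp only [hS]
    ring
  rw [h1]
  have hanti : ∀ i j, S j i = - S i j := by
    intro i j
    simp only [hS]
    rw [← Finset.sum_neg_distrib]
    refine Finset.sum_congr rfl fun a _ => ?_
    ring
  have h2 : ∑ i, ∑ j, A (b i) (b i) * B (b j) (b j) * (S i j) ^ 2 =
      1 / 2 * ∑ i, ∑ j, (A (b i) (b i) * B (b j) (b j) + A (b j) (b j) * B (b i) (b i)) *
        (S i j) ^ 2 := by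
    have h3 : ∑ i, ∑ j, A (b j) (b j) * B (b i) (b i) * (S i j) ^ 2 =
        ∑ i, ∑ j, A (b i) (b i) * B (b j) (b j) * (S i j) ^ 2 := by
      rw [Finset.sum_comm]
      refine Finset.sum_congr rfl fun i _ => Finset.sum_congr rfl fun j _ => ?_
      rw [hanti i j]
      ring
    simp only [add_mul, Finset.sum_add_distrib]
    rw [h3]; ring
  rw [h2]
  refine mul_nonneg (by norm_num) (Finset.sum_nonneg fun i _ => Finset.sum_nonneg fun j _ => ?_)
  rcases eq_or_ne i j with hij | hij
  · subst hij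
    have h0 : S i i = 0 := by have := hanti i i; linarith
    rw [h0]; simp
  · exact mul_nonneg (hq i j hij) (sq_nonneg _)

end Pool.Agent.U474.KN
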