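import Pool.Agent.U474.KN.Dia

/-!
# Weinstein's theorem for the Kulkarni–Nomizu product of two symmetric forms
-/

set_option autoImplicit false

namespace Pool.Agent.U474.KN

variable {V : Type*} [AddCommGroup V] [Module ℝ V] {A B : V →ₗ[ℝ] V →ₗ[ℝ] ℝ}

/-- the plane case -/
theorem op_of_two (hA : ∀ x y, A x y = A y x) (hB : ∀ x y, B x y = B y x)
    (hK : ∀ x y, 0 ≤ knL A B x y x y) {e f : V}
    (h : ∀ x : V, ∃ a b : ℝ, x = a • e + b • f) : Op (knL A B) := by
  choose α β hαβ using h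
  have key : ∀ x y z w : V, knL A B x y z w =
      (α x * β y - β x * α y) * (α z * β w - β z * α w) * knL A B e f e f := by
    intro x y z w
    conv_lhs => rw [hαβ x, hαβ y, hαβ z, hαβ w]
    simp only [knL, map_add, map_smul, LinearMap.add_apply, LinearMap.smul_apply, smul_eq_mul]
    rw [hA f e, hB f e]
    ring
  intro n x y
  have h0 : ∑ a, ∑ b, knL A B (x a) (y a) (x b) (y b) =
      ∑ a, ∑ b, (α (x a) * β (y a) - β (x a) * α (y a)) *
      (α (x b) * β (y b) - β (x b) * α (y b)) * knL A B e f e f :=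
    Finset.sum_congr rfl fun a _ => Finset.sum_congr rfl fun b _ => key _ _ _ _
  rw [h0]
  have h1 : ∑ a, ∑ b, (α (x a) * β (y a) - β (x a) * α (y a)) *
      (α (x b) * β (y b) - β (x b) * α (y b)) * knL A B e f e f =
      (∑ a, (α (x a) * β (y a) - β (x a) * α (y a))) ^ 2 * knL A B e f e f := by
    rw [sq, Finset.sum_mul_sum, Finset.sum_mul]
    refine Finset.sum_congr rfl fun a _ => ?_
    rw [Finset.sum_mul]
  rw [h1]
  exact mul_nonneg (sq_nonneg _) (hK e f)

theorem exists_two [FiniteDimensional ℝ V] (h : Module.finrank ℝ V ≤ 2) :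
    ∃ e f : V, ∀ x : V, ∃ a b : ℝ, x = a • e + b • f := by
  rcases (by omega : Module.finrank ℝ V = 0 ∨ Module.finrank ℝ V = 1 ∨ Module.finrank ℝ V = 2) with
    h0 | h0 | h0
  · rw [Module.finrank_zero_iff] at h0
    exact ⟨0, 0, fun x => ⟨0, 0, Subsingleton.elim _ _⟩⟩
  · let b := Module.finBasisOfFinrankEq ℝ V h0
    refine ⟨b 0, 0, fun x => ⟨b.repr x 0, 0, ?_⟩⟩
    conv_lhs => rw [← b.sum_repr x]
    simp
  · let b := Module.finBasisOfFinrankEq ℝ V h0
    refine ⟨b 0, b 1, fun x => ⟨b.repr x 0, b.repr x 1, ?_⟩⟩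
    conv_lhs => rw [← b.sum_repr x, Fin.sum_univ_two]

theorem exists_definite' [FiniteDimensional ℝ V] (hn : 3 ≤ Module.finrank ℝ V)
    (hA : ∀ x y, A x y = A y x)
    (hB : ∀ x y, B x y = B y x) (hK : ∀ x y, 0 ≤ knL A B x y x y)
    (hiso : ∀ u, A u u = 0 → B u u = 0 → u = 0) :
    ∃ s t : ℝ, ∀ x, x ≠ 0 → 0 < s * A x x + t * B x x := by
  obtain ⟨e⟩ : Nonempty (V ≃ₗ[ℝ] EuclideanSpace ℝ (Fin (Module.finrank ℝ V))) :=
    ⟨LinearEquiv.ofFinrankEq _ _ (by simp)⟩
  obtain ⟨s, t, h⟩ := exists_definite (V := EuclideanSpace ℝ (Fin (Module.finrank ℝ V)))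
    (A := A.compl₁₂ (e.symm : _ →ₗ[ℝ] V) (e.symm : _ →ₗ[ℝ] V))
    (B := B.compl₁₂ (e.symm : _ →ₗ[ℝ] V) (e.symm : _ →ₗ[ℝ] V))
    (by simpa using hn) (fun x y => hA _ _) (fun x y => hB _ _)
    (fun x y => hK (e.symm x) (e.symm y)) (fun u h1 h2 => by
      have := hiso (e.symm u) h1 h2
      simpa using this)
  refine ⟨s, t, fun x hx => ?_⟩
  have h1 := h (e x) (by simpa using hx)
  simpa using h1

/-- A common orthogonal basis, when there is no common isotropic vector. -/
theorem exists_common [FiniteDimensional ℝ V] (hn : 3 ≤ Module.finrank ℝ V)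
    (hA : ∀ x y, A x y = A y x)
    (hB : ∀ x y, B x y = B y x) (hK : ∀ x y, 0 ≤ knL A B x y x y)
    (hiso : ∀ u, A u u = 0 → B u u = 0 → u = 0) :
    ∃ b : Module.Basis (Fin (Module.finrank ℝ V)) ℝ V,
      (∀ i j, i ≠ j → A (b i) (b j) = 0) ∧ (∀ i j, i ≠ j → B (b i) (b j) = 0) := by
  obtain ⟨s, t, h⟩ := exists_definite' hn hA hB hK hiso
  exact exists_diag hA hB h

/-- **Weinstein's theorem for two symmetric forms**, finite-dimensional case. -/
theorem op_fin (n : ℕ) : ∀ {V : Type*} [AddCommGroup V] [Module ℝ V] [FiniteDimensional ℝ V]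
    {A B : V →ₗ[ℝ] V →ₗ[ℝ] ℝ}, Module.finrank ℝ V = n → (∀ x y, A x y = A y x) →
    (∀ x y, B x y = B y x) → (∀ x y, 0 ≤ knL A B x y x y) → Op (knL A B) := by
  induction n with
  | zero =>
    intro V _ _ _ A B hn hA hB hK
    obtain ⟨e, f, h⟩ := exists_two (V := V) (by omega)
    exact op_of_two hA hB hK h
  | succ n ih =>
    intro V _ _ _ A B hn hA hB hK
    by_cases h2 : Module.finrank ℝ V ≤ 2
    · obtain ⟨e, f, h⟩ := exists_two (V := V) h2
      exact op_of_two hA hB hK h
    push Not at h2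
    by_cases hiso : ∀ u, A u u = 0 → B u u = 0 → u = 0
    · obtain ⟨b, h3, h4⟩ := exists_common (by omega) hA hB hK hiso
      refine op_of_basis b h3 h4 fun i j hij => ?_
      have h5 := hK (b i) (b j)
      simp only [knL, h3 i j hij, h4 i j hij] at h5
      linarith
    push Not at hiso
    obtain ⟨u, h3, h4, hu⟩ := hiso
    by_cases h5 : A u ≠ 0 ∨ B u ≠ 0
    · exact op_of_isotropic hA hB hK h3 h4 h5
    push Not at h5
    obtain ⟨hA0, hB0⟩ := h5
    obtain ⟨W, hW⟩ := Submodule.exists_isCompl (Submodule.span ℝ {u})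
    have hfr := Submodule.finrank_add_eq_of_isCompl hW
    rw [finrank_span_singleton hu, hn] at hfr
    have h6 := ih (V := W) (A := A.compl₁₂ W.subtype W.subtype) (B := B.compl₁₂ W.subtype W.subtype)
      (by omega) (fun x y => hA _ _) (fun x y => hB _ _) (fun x y => hK x y)
    have h7 : ∀ x : V, ∃ w : W, ∃ c : ℝ, x = c • u + w := by
      intro x
      have h8 : x ∈ Submodule.span ℝ {u} ⊔ W := by rw [hW.sup_eq_top]; trivial
      obtain ⟨y, hy, z, hz, h9⟩ := Submodule.mem_sup.1 h8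
      obtain ⟨c, hc⟩ := Submodule.mem_span_singleton.1 hy
      exact ⟨⟨z, hz⟩, c, by rw [← h9, ← hc]⟩
    choose π c hπ using h7
    have hAu : ∀ x, A u x = 0 := fun x => by rw [hA0]; rfl
    have hBu : ∀ x, B u x = 0 := fun x => by rw [hB0]; rfl
    have hAu' : ∀ x, A x u = 0 := fun x => by rw [hA, hAu]
    have hBu' : ∀ x, B x u = 0 := fun x => by rw [hB, hBu]
    have hAπ : ∀ x y, A x y = A (π x) (π y) := by
      intro x y
      conv_lhs => rw [hπ x, hπ y]
      simp only [map_add, map_smul, LinearMap.add_apply, LinearMap.smul_apply, smul_eq_mul,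
        hAu, hAu']
      ring
    have hBπ : ∀ x y, B x y = B (π x) (π y) := by
      intro x y
      conv_lhs => rw [hπ x, hπ y]
      simp only [map_add, map_smul, LinearMap.add_apply, LinearMap.smul_apply, smul_eq_mul,
        hBu, hBu']
      ring
    intro k x y
    have h8 := h6 k (fun a => π (x a)) (fun a => π (y a))
    refine h8.trans (le_of_eq ?_)
    refine Finset.sum_congr rfl fun a _ => Finset.sum_congr rfl fun b _ => ?_
    simp only [knL]
    rw [hAπ (x a) (x b), hAπ (y a) (y b), hAπ (x a) (y b), hAπ (y a) (x b),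
      hBπ (x a) (x b), hBπ (y a) (y b), hBπ (x a) (y b), hBπ (y a) (x b)]
    rfl

/-- **Weinstein's theorem for two symmetric forms.**  Two symmetric bilinear forms on a real vector
space whose Kulkarni–Nomizu product is nonnegative on all decomposable bivectors have a
Kulkarni–Nomizu product which is nonnegative on all bivectors. -/
theorem op_all (hA : ∀ x y, A x y = A y x) (hB : ∀ x y, B x y = B y x)
    (hK : ∀ x y, 0 ≤ knL A B x y x y) : Op (knL A B) := by
  intro n x y
  let W : Submodule ℝ V := Submodule.span ℝ (Set.range x ∪ Set.range y)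
  have hfin : FiniteDimensional ℝ W :=
    FiniteDimensional.span_of_finite ℝ ((Set.finite_range x).union (Set.finite_range y))
  have hx : ∀ a, x a ∈ W := fun a => Submodule.subset_span (Or.inl ⟨a, rfl⟩)
  have hy : ∀ a, y a ∈ W := fun a => Submodule.subset_span (Or.inr ⟨a, rfl⟩)
  have h := op_fin (Module.finrank ℝ W) (V := W) (A := A.compl₁₂ W.subtype W.subtype)
    (B := B.compl₁₂ W.subtype W.subtype) rfl (fun x y => hA _ _) (fun x y => hB _ _)
    (fun x y => hK x y)
  exact h n (fun a => ⟨x a, hx a⟩) (fun a => ⟨y a, hy a⟩)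

end Pool.Agent.U474.KN
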