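import Pool.Agent.Y195.HF.Main
import Pool.Agent.U474.KN.Wei

/-!
# Obliquely pure curvature tensors

Curvature tensors which are diagonal in a basis that need not be orthonormal.
-/

set_option autoImplicit false

namespace Pool.Agent.U474.KN

open Pool.Agent.W666.GB Pool.Agent.W669.HD Pool.Agent.W688.HD Finset

variable {m : ℕ} {V : Type} [NormedAddCommGroup V] [InnerProductSpace ℝ V]

/-- change of basis -/
theorem GG_det {R : V → V → V → V → ℝ} (h : AlgCurv R)
    (e : OrthonormalBasis (Fin m × Bool) ℝ V) (v : Fin m × Bool → V) :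
    GG R v v = GG R e e * e.toBasis.det v ^ 2 := by
  have h0 : ∀ w : Fin m × Bool → V, GG R v w = GG R e w * e.toBasis.det v := by
    intro w
    rw [GG_eq h, GG_eq h]
    have h1 := AlternatingMap.eq_smul_basis_det e.toBasis (MultilinearMap.alternatization (MM h w))
    have h2 := congrArg (fun f : V [⋀^(Fin m × Bool)]→ₗ[ℝ] ℝ => f v) h1
    simp only [AlternatingMap.smul_apply, smul_eq_mul, OrthonormalBasis.coe_toBasis] at h2
    exact h2
  rw [h0, GG_symm h e v, h0]
  ring

omit [NormedAddCommGroup V] [InnerProductSpace ℝ V] in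
/-- the double sum in a diagonalising basis -/
theorem GG_diag {K : V → V → V → V → ℝ} (v : Fin m × Bool → V) (κ : Fin m × Bool → Fin m × Bool → ℝ)
    (hd : ∀ i j k l, K (v i) (v j) (v k) (v l) = κ i j * unitCurv i j k l) :
    GG K v v = 2 ^ m * ∑ σ : Equiv.Perm (Fin m × Bool),
      ∏ b : Fin m, κ (σ (b, false)) (σ (b, true)) := by
  classical
  have h1 := lift_sum (B := Fin m) (fun a b c d => κ a c * (if a = b then 1 else 0) *
    (if c = d then 1 else 0)) (fun i j k l => K (v i) (v j) (v k) (v l)) (by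
      intro i j k l
      rw [hd]
      simp only [unitCurv]
      ring)
  rw [Fintype.card_fin] at h1
  have h0 : GG K v v = _ := h1
  rw [h0]
  congr 1
  rw [Yf]
  refine Finset.sum_congr rfl fun π _ => ?_
  rw [Finset.sum_eq_single π]
  · have : sn π * sn π = 1 := by
      rcases Int.units_eq_one_or (Equiv.Perm.sign π) with h | h <;> simp [sn, h]
    rw [this, one_mul]
    refine Finset.prod_congr rfl fun b _ => ?_
    simp
  · intro π' _ hne
    have h3 : ∃ x, π x ≠ π' x := by
      by_contra hc
      push Not at hc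
      exact hne (Equiv.ext fun x => (hc x).symm)
    obtain ⟨⟨b, β⟩, hb⟩ := h3
    have : ∏ b : Fin m, (κ (π (b, false)) (π (b, true)) *
        (if π (b, false) = π' (b, false) then 1 else 0) *
        (if π (b, true) = π' (b, true) then (1 : ℝ) else 0)) = 0 := by
      refine Finset.prod_eq_zero (Finset.mem_univ b) ?_
      cases β with
      | false => rw [if_neg hb]; ring
      | true => rw [if_neg hb]; ring
    rw [this, mul_zero]
  · intro h; exact absurd (Finset.mem_univ _) h

/-- Hadamard's inequality -/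
theorem hadamard (e : OrthonormalBasis (Fin m × Bool) ℝ V) (v : Fin m × Bool → V) :
    |e.toBasis.det v| ≤ ∏ i, ‖v i‖ := by
  classical
  have hfin : FiniteDimensional ℝ V := e.toBasis.finiteDimensional_of_finite
  let f : Fin m × Bool ≃ Fin (Fintype.card (Fin m × Bool)) := Fintype.equivFin _
  have hc : Module.finrank ℝ V = Fintype.card (Fin m × Bool) := Module.finrank_eq_card_basis e.toBasis
  have : Fact (Module.finrank ℝ V = Fintype.card (Fin m × Bool)) := ⟨hc⟩
  let e' : OrthonormalBasis (Fin (Fintype.card (Fin m × Bool))) ℝ V := e.reindex f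
  have h1 := (e'.toBasis.orientation).abs_volumeForm_apply_le (v ∘ f.symm)
  rw [Orientation.volumeForm_robust' _ e'] at h1
  have h2 : e'.toBasis.det (v ∘ f.symm) = e.toBasis.det v := by
    have : e'.toBasis = e.toBasis.reindex f := by
      ext i; simp [e']
    rw [this, Module.Basis.det_reindex]
    congr 1
    funext i
    simp
  rw [h2] at h1
  refine h1.trans (le_of_eq ?_)
  exact Fintype.prod_equiv f.symm _ _ fun i => rfl

/-- shearing -/
theorem det_shear (e : OrthonormalBasis (Fin m × Bool) ℝ V) (v : Fin m × Bool → V) (c : Fin m → ℝ)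
    (S : Finset (Fin m)) :
    e.toBasis.det (fun i => v i + (if i.2 = true ∧ i.1 ∈ S then c i.1 else 0) • v (i.1, false)) =
      e.toBasis.det v := by
  classical
  induction S using Finset.induction_on with
  | empty => simp
  | insert a S ha ih =>
    rw [← ih]
    set w : Fin m × Bool → V := fun i => v i + (if i.2 = true ∧ i.1 ∈ S then c i.1 else 0) •
      v (i.1, false) with hw
    have h1 : (fun i : Fin m × Bool => v i + (if i.2 = true ∧ i.1 ∈ insert a S then c i.1 else 0) •
        v (i.1, false)) = Function.update w (a, true) (w (a, true) + c a • w (a, false)) := by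
      funext i
      obtain ⟨b, β⟩ := i
      by_cases hb : b = a
      · subst hb
        cases β
        · rw [Function.update_of_ne (by simp)]
          simp [hw]
        · rw [Function.update_self]
          simp [hw, ha]
      · rw [Function.update_of_ne (by simp [hb])]
        simp [hw, hb]
    rw [h1, AlternatingMap.map_update_add, AlternatingMap.map_update_smul,
      Function.update_eq_self, AlternatingMap.map_update_self _ _ (by simp), smul_zero, add_zero]

theorem norm_shear (x y : V) : ‖x‖ ^ 2 * ‖y + (- (inner ℝ x y / ‖x‖ ^ 2)) • x‖ ^ 2 =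
    unitT x y x y := by
  have hu : unitT x y x y = ‖x‖ ^ 2 * ‖y‖ ^ 2 - inner ℝ x y ^ 2 := by
    simp only [unitT, real_inner_self_eq_norm_sq]
    rw [real_inner_comm x y]; ring
  rw [hu]
  by_cases hx : x = 0
  · simp [hx]
  · have hx' : ‖x‖ ^ 2 ≠ 0 := by positivity
    rw [norm_add_sq_real, norm_smul, inner_smul_right, real_inner_comm x y]
    rw [mul_pow, Real.norm_eq_abs, sq_abs]
    field_simp
    ring

/-- Fischer's inequality -/
theorem fischer (e : OrthonormalBasis (Fin m × Bool) ℝ V) (v : Fin m × Bool → V) :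
    e.toBasis.det v ^ 2 ≤ ∏ b : Fin m, unitT (v (b, false)) (v (b, true)) (v (b, false))
      (v (b, true)) := by
  classical
  rw [← det_shear e v (fun b => - (inner ℝ (v (b, false)) (v (b, true)) / ‖v (b, false)‖ ^ 2))
    Finset.univ]
  set w : Fin m × Bool → V := fun i => v i + (if i.2 = true ∧ i.1 ∈ Finset.univ then
    - (inner ℝ (v (i.1, false)) (v (i.1, true)) / ‖v (i.1, false)‖ ^ 2) else 0) • v (i.1, false)
    with hw
  have h1 := hadamard e w
  have h2 : e.toBasis.det w ^ 2 ≤ (∏ i, ‖w i‖) ^ 2 := by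
    rw [← sq_abs]
    exact pow_le_pow_left₀ (abs_nonneg _) h1 2
  refine h2.trans (le_of_eq ?_)
  rw [← Finset.prod_pow, Fintype.prod_prod_type]
  refine Finset.prod_congr rfl fun b _ => ?_
  rw [Fintype.prod_bool, mul_comm]
  rw [← norm_shear]
  simp [hw]

theorem unitT_nonneg (x y : V) : 0 ≤ unitT x y x y := by
  rw [← norm_shear]; positivity

/-- **Obliquely pure curvature tensors.** -/
theorem pure_bound (e : OrthonormalBasis (Fin m × Bool) ℝ V) {K : V → V → V → V → ℝ}
    (hK : AlgCurv K) {δ : ℝ} (hδ : 0 ≤ δ) (v : Fin m × Bool → V) (hv : LinearIndependent ℝ v)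
    (hd : ∀ i j k l, K (v i) (v j) (v k) (v l) = K (v i) (v j) (v i) (v j) * unitCurv i j k l)
    (hs : ∀ x y, δ * unitT x y x y ≤ K x y x y) :
    2 ^ m * (δ ^ m * (2 * m).factorial) ≤ GG K e e := by
  classical
  have hdet : 0 < e.toBasis.det v ^ 2 := by
    have hb : IsUnit (e.toBasis.det v) := by
      rw [← Module.Basis.is_basis_iff_det]
      refine ⟨hv, ?_⟩
      have hfin : FiniteDimensional ℝ V := e.toBasis.finiteDimensional_of_finite
      exact LinearIndependent.span_eq_top_of_card_eq_finrank' hv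
        (Module.finrank_eq_card_basis e.toBasis).symm
    have := hb.ne_zero
    positivity
  have h1 := GG_det hK e v
  have h2 := GG_diag (m := m) v (fun i j => K (v i) (v j) (v i) (v j)) hd
  have h3 : ∀ σ : Equiv.Perm (Fin m × Bool), δ ^ m * e.toBasis.det v ^ 2 ≤
      ∏ b : Fin m, K (v (σ (b, false))) (v (σ (b, true))) (v (σ (b, false))) (v (σ (b, true))) := by
    intro σ
    have h4 : e.toBasis.det v ^ 2 = e.toBasis.det (v ∘ σ) ^ 2 := by
      rw [AlternatingMap.map_perm]
      rcases Int.units_eq_one_or (Equiv.Perm.sign σ) with h | h <;> simp [h]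
    have h5 := fischer e (v ∘ σ)
    rw [← h4] at h5
    calc δ ^ m * e.toBasis.det v ^ 2
        ≤ δ ^ m * ∏ b : Fin m, unitT ((v ∘ σ) (b, false)) ((v ∘ σ) (b, true))
          ((v ∘ σ) (b, false)) ((v ∘ σ) (b, true)) :=
          mul_le_mul_of_nonneg_left h5 (pow_nonneg hδ _)
      _ = ∏ b : Fin m, δ * unitT ((v ∘ σ) (b, false)) ((v ∘ σ) (b, true))
          ((v ∘ σ) (b, false)) ((v ∘ σ) (b, true)) := by
          rw [Finset.prod_mul_distrib, Finset.prod_const, Finset.card_univ, Fintype.card_fin]
      _ ≤ _ := Finset.prod_le_prod (fun b _ => mul_nonneg hδ (unitT_nonneg _ _)) fun b _ => hs _ _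
  have h6 : 2 ^ m * (δ ^ m * (2 * m).factorial) * e.toBasis.det v ^ 2 ≤ GG K v v := by
    rw [h2]
    have h7 : ∑ _σ : Equiv.Perm (Fin m × Bool), δ ^ m * e.toBasis.det v ^ 2 ≤
        ∑ σ : Equiv.Perm (Fin m × Bool),
        ∏ b : Fin m, K (v (σ (b, false))) (v (σ (b, true))) (v (σ (b, false))) (v (σ (b, true))) :=
      Finset.sum_le_sum fun σ _ => h3 σ
    rw [Finset.sum_const, Finset.card_univ, Fintype.card_perm, Fintype.card_prod, Fintype.card_fin,
      Fintype.card_bool, nsmul_eq_mul, mul_comm m 2] at h7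
    have h8 : (0 : ℝ) < 2 ^ m := by positivity
    nlinarith [mul_le_mul_of_nonneg_left h7 h8.le]
  rw [h1] at h6
  exact le_of_mul_le_mul_right h6 hdet

theorem gbc_GG (e : OrthonormalBasis (Fin m × Bool) ℝ V) (R : V → V → V → V → ℝ) :
    (-1) ^ m * gbc e R = 1 / ((8 * Real.pi) ^ m * m.factorial) * GG (negT R) e e := by
  rw [gbc_eq]
  rfl

theorem round_le (e : OrthonormalBasis (Fin m × Bool) ℝ V) {R : V → V → V → V → ℝ} {δ : ℝ}
    (h : 2 ^ m * (δ ^ m * (2 * m).factorial) ≤ GG (negT R) e e) :
    roundGB m δ ≤ (-1) ^ m * gbc e R := by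
  rw [gbc_GG]
  have hπ := Real.pi_pos
  have hc : 0 < 1 / ((8 * Real.pi) ^ m * (m.factorial : ℝ)) := by positivity
  have hr : roundGB m δ = 1 / ((8 * Real.pi) ^ m * m.factorial) *
      (2 ^ m * (δ ^ m * (2 * m).factorial)) := by
    unfold roundGB
    have : (8 * Real.pi) ^ m = 2 ^ m * (4 * Real.pi) ^ m := by
      rw [← mul_pow]; congr 1; ring
    rw [this]
    field_simp
  rw [hr]
  exact mul_le_mul_of_nonneg_left h hc.le

end Pool.Agent.U474.KN
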