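import Pool.Agent.U474.KN.Sec
import Pool.Agent.Y489.SM.Gc

/-!
# The bound in codimension two
-/

set_option autoImplicit false

namespace Pool.Agent.U474.KN

open Pool.Agent.W666.GB Pool.Agent.W669.HD Pool.Agent.W688.HD Finset

variable {m : ℕ} {V : Type} [NormedAddCommGroup V] [InnerProductSpace ℝ V]

omit [NormedAddCommGroup V] [InnerProductSpace ℝ V] in
/-- diagonal forms -/
theorem diag_gauss2 {ι : Type} [DecidableEq ι] {P Q : V → V → ℝ} (a b c : ℝ) (v : ι → V)
    (hP : ∀ i j, i ≠ j → P (v i) (v j) = 0) (hQ : ∀ i j, i ≠ j → Q (v i) (v j) = 0)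
    (i j k l : ι) :
    gauss2 a b c P Q (v i) (v j) (v k) (v l) =
      gauss2 a b c P Q (v i) (v j) (v i) (v j) * unitCurv i j k l := by
  have hP' : ∀ i j, P (v i) (v j) = P (v i) (v i) * (if i = j then 1 else 0) := by
    intro i j
    split_ifs with h
    · rw [h, mul_one]
    · rw [hP i j h, mul_zero]
  have hQ' : ∀ i j, Q (v i) (v j) = Q (v i) (v i) * (if i = j then 1 else 0) := by
    intro i j
    split_ifs with h
    · rw [h, mul_one]
    · rw [hQ i j h, mul_zero]
  by_cases hij : i = j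
  · subst hij
    simp only [gauss2, unitCurv]
    ring
  · simp only [gauss2, unitCurv]
    rw [hP' i k, hP' j l, hP' i l, hP' j k, hP i j hij, hP j i (Ne.symm hij),
      hQ' i k, hQ' j l, hQ' i l, hQ' j k, hQ i j hij, hQ j i (Ne.symm hij)]
    ring

theorem unitT_pos {x y : V} (h : ∀ t : ℝ, y ≠ t • x) (hx : x ≠ 0) : 0 < unitT x y x y := by
  rw [← norm_shear]
  have h1 : y + (- (inner ℝ x y / ‖x‖ ^ 2)) • x ≠ 0 := by
    intro h0
    apply h (inner ℝ x y / ‖x‖ ^ 2)
    rw [neg_smul, ← sub_eq_add_neg, sub_eq_zero] at h0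
    exact h0
  have h2 : 0 < ‖x‖ := norm_pos_iff.2 hx
  have h3 : 0 < ‖y + (- (inner ℝ x y / ‖x‖ ^ 2)) • x‖ := norm_pos_iff.2 h1
  positivity

/-- no common isotropic vector when the curvatures are bounded away from zero -/
theorem no_iso [FiniteDimensional ℝ V] (hn : 4 ≤ Module.finrank ℝ V) {P Q : V → V → ℝ}
    (hP : SymForm P) (hQ : SymForm Q) {a b c δ : ℝ} (hδ : 0 < δ)
    (h : SecGe (gauss2 a b c P Q) δ) (u : V) (h1 : P u u = 0) (h2 : Q u u = 0) : u = 0 := by
  by_contra hu
  set f : V →ₗ[ℝ] ℝ × ℝ := (hP.toL u).prod (hQ.toL u) with hf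
  have hk : 2 ≤ Module.finrank ℝ (LinearMap.ker f) := by
    have h3 := f.finrank_range_add_finrank_ker
    have h4 : Module.finrank ℝ (LinearMap.range f) ≤ Module.finrank ℝ (ℝ × ℝ) :=
      Submodule.finrank_le _
    rw [Module.finrank_prod, Module.finrank_self] at h4
    omega
  obtain ⟨y, hy, hyu⟩ : ∃ y ∈ LinearMap.ker f, y ∉ Submodule.span ℝ {u} := by
    by_contra hc
    push Not at hc
    have h3 : LinearMap.ker f ≤ Submodule.span ℝ {u} := fun y hy => hc y hy
    have h4 := Submodule.finrank_mono h3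
    rw [finrank_span_singleton hu] at h4
    omega
  have h3 : P u y = 0 ∧ Q u y = 0 := by
    have : f y = 0 := hy
    simp only [hf, LinearMap.prod_apply, Function.prod_apply, Prod.mk_eq_zero,
      SymForm.toL_apply] at this
    exact this
  have h4 := h u y
  have h5 : gauss2 a b c P Q u y u y = 0 := by
    simp only [gauss2]
    rw [hP.symm y u, hQ.symm y u, h1, h2, h3.1, h3.2]
    ring
  rw [h5] at h4
  have h6 := unitT_pos (x := u) (y := y) (fun t ht => hyu (by
    rw [ht]; exact Submodule.smul_mem _ _ (Submodule.mem_span_singleton_self u))) hu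
  nlinarith [mul_pos hδ h6]

/-- dimensions at most four -/
theorem small_bound (hm : m ≤ 2) (e : OrthonormalBasis (Fin m × Bool) ℝ V)
    {K : V → V → V → V → ℝ} (hK : AlgCurv K) {δ : ℝ} (hδ : 0 ≤ δ) (h : SecGe K δ) :
    roundGB m δ ≤ (-1) ^ m * gbc e (negT K) := by
  have hfin : FiniteDimensional ℝ V := e.toBasis.finiteDimensional_of_finite
  have hR := Pool.Agent.Y195.HF.neg_curv hK
  have h1 := sum_bound e (⊤ : Submodule ℝ V)
    (R₁ := addT (negT K) fun x y z w => δ * unitT x y z w)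
    (R₂ := negT fun x y z w => δ * unitT x y z w)
    (add_curv hR (unit_curv δ)) (Pool.Agent.Y195.HF.neg_curv (unit_curv δ)) (by
      rw [finrank_top, Module.finrank_eq_card_basis e.toBasis]
      simp
      omega) (by
      intro x hx y z w
      rw [Submodule.top_orthogonal_eq_bot, Submodule.mem_bot] at hx
      rw [hx]
      have := (add_curv hR (unit_curv δ)).smul 0 0 y z w
      simpa using this) (fun x y => by
      have := h x y
      simp only [addT, negT]
      linarith) hδ (by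
      intro n x y
      refine le_of_eq ?_
      symm
      refine Finset.sum_eq_zero fun a _ => Finset.sum_eq_zero fun b _ => ?_
      simp only [addT, negT]
      ring)
  have h2 : addT (addT (negT K) fun x y z w => δ * unitT x y z w)
      (negT fun x y z w => δ * unitT x y z w) = negT K := by
    funext x y z w
    simp only [addT, negT]
    ring
  rwa [h2] at h1

omit [NormedAddCommGroup V] [InnerProductSpace ℝ V] in
theorem negT_negT (K : V → V → V → V → ℝ) : negT (negT K) = K := by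
  funext x y z w
  simp [negT]

/-- a common orthogonal basis gives the bound -/
theorem bound_of_basis (e : OrthonormalBasis (Fin m × Bool) ℝ V) {P Q : V → V → ℝ}
    (hP : SymForm P) (hQ : SymForm Q) {a b c δ : ℝ} (hδ : 0 ≤ δ)
    (h : SecGe (gauss2 a b c P Q) δ)
    (hb : ∃ v : Module.Basis (Fin (Module.finrank ℝ V)) ℝ V,
      (∀ i j, i ≠ j → hP.toL (v i) (v j) = 0) ∧ (∀ i j, i ≠ j → hQ.toL (v i) (v j) = 0)) :
    roundGB m δ ≤ (-1) ^ m * gbc e (negT (gauss2 a b c P Q)) := by
  obtain ⟨v, h1, h2⟩ := hb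
  have hc : Fintype.card (Fin (Module.finrank ℝ V)) = Fintype.card (Fin m × Bool) := by
    rw [Module.finrank_eq_card_basis e.toBasis, Fintype.card_fin]
  let f := Fintype.equivOfCardEq hc
  let v' : Module.Basis (Fin m × Bool) ℝ V := v.reindex f
  refine round_le e ?_
  rw [negT_negT]
  refine pure_bound e (gauss2_curv hP hQ a b c) hδ (fun i => v' i) v'.linearIndependent ?_ h
  intro i j k l
  refine diag_gauss2 a b c (fun i => v' i) (fun i j hij => ?_) (fun i j hij => ?_) i j k l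
  · simp only [v', Module.Basis.reindex_apply]
    exact h1 _ _ (by simpa using hij)
  · simp only [v', Module.Basis.reindex_apply]
    exact h2 _ _ (by simpa using hij)

theorem sec_mono {K : V → V → V → V → ℝ} {δ : ℝ} (hδ : 0 ≤ δ) (h : SecGe K δ) :
    SecGe K 0 := by
  intro x y
  have h1 := h x y
  have h2 := mul_nonneg hδ (unitT_nonneg x y)
  linarith

/-- Kulkarni–Nomizu products -/
theorem basis_kn [FiniteDimensional ℝ V] {P Q : V → V → ℝ}
    (hP : SymForm P) (hQ : SymForm Q) {δ : ℝ} (hδ : 0 < δ) (hn : 4 ≤ Module.finrank ℝ V)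
    (h : SecGe (gauss2 0 (1 / 2) 0 P Q) δ) :
    ∃ v : Module.Basis (Fin (Module.finrank ℝ V)) ℝ V,
      (∀ i j, i ≠ j → hP.toL (v i) (v j) = 0) ∧ (∀ i j, i ≠ j → hQ.toL (v i) (v j) = 0) := by
  refine exists_common (by omega) (fun x y => hP.symm x y) (fun x y => hQ.symm x y)
    (fun x y => ?_) (fun u h1 h2 => no_iso (by omega) hP hQ hδ h u h1 h2)
  have h1 := sec_mono hδ.le h x y
  rw [gauss2_kn hP hQ] at h1
  linarith

/-- two squares -/
theorem basis_pos [FiniteDimensional ℝ V] {P Q : V → V → ℝ}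
    (hP : SymForm P) (hQ : SymForm Q) {δ : ℝ} (hδ : 0 < δ) (hn : 2 ≤ Module.finrank ℝ V)
    (h : SecGe (gauss2 1 0 1 P Q) δ) :
    ∃ v : Module.Basis (Fin (Module.finrank ℝ V)) ℝ V,
      (∀ i j, i ≠ j → hP.toL (v i) (v j) = 0) ∧ (∀ i j, i ≠ j → hQ.toL (v i) (v j) = 0) := by
  have hnt : Nontrivial V := Module.nontrivial_of_finrank_pos (R := ℝ) (by omega)
  obtain ⟨x0, hx0⟩ := exists_ne (0 : V)
  have key : ∀ y, (∀ t : ℝ, y ≠ t • x0) → 0 < P x0 x0 * P y y + Q x0 x0 * Q y y := by
    intro y hy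
    have h1 := h x0 y
    have h2 := mul_pos hδ (unitT_pos hy hx0)
    simp only [gauss2] at h1
    rw [hP.symm y x0, hQ.symm y x0] at h1
    nlinarith [sq_nonneg (P x0 y), sq_nonneg (Q x0 y)]
  have hne : 0 < P x0 x0 ^ 2 + Q x0 x0 ^ 2 := by
    obtain ⟨y, hy⟩ : ∃ y : V, ∀ t : ℝ, y ≠ t • x0 := by
      by_contra hc
      push Not at hc
      have h4 : (⊤ : Submodule ℝ V) ≤ Submodule.span ℝ {x0} := by
        intro y _
        obtain ⟨t, ht⟩ := hc y
        rw [ht]
        exact Submodule.smul_mem _ _ (Submodule.mem_span_singleton_self x0)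
      have h5 := Submodule.finrank_mono h4
      rw [finrank_top, finrank_span_singleton hx0] at h5
      omega
    have h3 := key y hy
    by_contra hc
    have h4 : P x0 x0 = 0 := by nlinarith [sq_nonneg (P x0 x0), sq_nonneg (Q x0 x0)]
    have h5 : Q x0 x0 = 0 := by nlinarith [sq_nonneg (P x0 x0), sq_nonneg (Q x0 x0)]
    rw [h4, h5] at h3
    linarith
  refine exists_diag (s := P x0 x0) (t := Q x0 x0) (fun x y => hP.symm x y)
    (fun x y => hQ.symm x y) fun y hy => ?_
  simp only [SymForm.toL_apply]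
  by_cases hc : ∀ t : ℝ, y ≠ t • x0
  · exact key y hc
  · push Not at hc
    obtain ⟨t, rfl⟩ := hc
    have ht : t ≠ 0 := by
      rintro rfl
      exact hy (zero_smul _ _)
    have e1 : P (t • x0) (t • x0) = t ^ 2 * P x0 x0 := by
      rw [hP.smul, hP.symm, hP.smul]; ring
    have e2 : Q (t • x0) (t • x0) = t ^ 2 * Q x0 x0 := by
      rw [hQ.smul, hQ.symm, hQ.smul]; ring
    rw [e1, e2]
    have h5 : P x0 x0 * (t ^ 2 * P x0 x0) + Q x0 x0 * (t ^ 2 * Q x0 x0) =
        t ^ 2 * (P x0 x0 ^ 2 + Q x0 x0 ^ 2) := by ring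
    rw [h5]
    positivity

/-- the second fundamental form with two components -/
noncomputable def pairL {P Q : V → V → ℝ} (hP : SymForm P) (hQ : SymForm Q) :
    V →ₗ[ℝ] V →ₗ[ℝ] EuclideanSpace ℝ (Fin 2) :=
  LinearMap.mk₂ ℝ (fun x y => !₂[P x y, Q x y])
    (fun x x' y => by
      ext i; fin_cases i <;> simp [hP.add, hQ.add])
    (fun t x y => by
      ext i; fin_cases i <;> simp [hP.smul, hQ.smul])
    (fun x y y' => by
      ext i; fin_cases i <;> simp [hP.symm x, hQ.symm x, hP.add, hQ.add])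
    (fun t x y => by
      ext i; fin_cases i <;> simp [hP.symm x, hQ.symm x, hP.smul, hQ.smul])

theorem pairL_apply {P Q : V → V → ℝ} (hP : SymForm P) (hQ : SymForm Q) (x y : V) :
    pairL hP hQ x y = !₂[P x y, Q x y] := rfl

theorem pair_gauss {P Q : V → V → ℝ} (hP : SymForm P) (hQ : SymForm Q) :
    negT (gauss2 (-1) 0 (-1) P Q) = Pool.Agent.Y489.SM.gauss (pairL hP hQ) := by
  funext x y z w
  simp only [negT, gauss2, Pool.Agent.Y489.SM.gauss, pairL_apply]
  simp only [EuclideanSpace.inner_eq_star_dotProduct]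
  simp [dotProduct, Fin.sum_univ_two]
  ring

theorem pair_symm {P Q : V → V → ℝ} (hP : SymForm P) (hQ : SymForm Q) (x y : V) :
    pairL hP hQ x y = pairL hP hQ y x := by
  rw [pairL_apply, pairL_apply, hP.symm, hQ.symm]

theorem pair_sec {P Q : V → V → ℝ} (hP : SymForm P) (hQ : SymForm Q) {δ : ℝ} (hδ : 0 ≤ δ)
    (h : SecGe (gauss2 (-1) 0 (-1) P Q) δ) (x y : V) :
    Pool.Agent.Y489.SM.gauss (pairL hP hQ) x y x y ≤ 0 := by
  rw [← pair_gauss]
  have := sec_mono hδ h x y
  simp only [negT]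
  linarith

/-- minus two squares: curvatures bounded away from zero are impossible -/
theorem no_neg [FiniteDimensional ℝ V] {P Q : V → V → ℝ}
    (hP : SymForm P) (hQ : SymForm Q) {δ : ℝ} (hδ : 0 < δ) (hn : 4 ≤ Module.finrank ℝ V)
    (h : SecGe (gauss2 (-1) 0 (-1) P Q) δ) : False := by
  obtain ⟨x, hx, hx0⟩ := Pool.Agent.Y489.SM.otsuki (pairL hP hQ) (pair_symm hP hQ) (fun x y => by
    rw [← Pool.Agent.Y489.SM.gauss_sec (pair_symm hP hQ)]; exact pair_sec hP hQ hδ.le h x y) ⊤
    (fun _ _ => trivial) (by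
      rw [finrank_top, finrank_euclideanSpace_fin]; omega)
  refine hx (no_iso (by omega) hP hQ hδ h x ?_ ?_)
  · have := congrArg (fun v : EuclideanSpace ℝ (Fin 2) => v 0) hx0
    simpa [pairL_apply] using this
  · have := congrArg (fun v : EuclideanSpace ℝ (Fin 2) => v 1) hx0
    simpa [pairL_apply] using this

theorem finrank_two (e : OrthonormalBasis (Fin m × Bool) ℝ V) : Module.finrank ℝ V = 2 * m := by
  rw [Module.finrank_eq_card_basis e.toBasis]
  simp; ring

theorem bound_kn (e : OrthonormalBasis (Fin m × Bool) ℝ V) {P Q : V → V → ℝ}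
    (hP : SymForm P) (hQ : SymForm Q) {δ : ℝ} (hδ : 0 < δ) (hm : 2 ≤ m)
    (h : SecGe (gauss2 0 (1 / 2) 0 P Q) δ) :
    roundGB m δ ≤ (-1) ^ m * gbc e (negT (gauss2 0 (1 / 2) 0 P Q)) := by
  have hfin : FiniteDimensional ℝ V := e.toBasis.finiteDimensional_of_finite
  have hn := finrank_two e
  exact bound_of_basis e hP hQ hδ.le h (basis_kn hP hQ hδ (by omega) h)

theorem bound_pos (e : OrthonormalBasis (Fin m × Bool) ℝ V) {P Q : V → V → ℝ}
    (hP : SymForm P) (hQ : SymForm Q) {δ : ℝ} (hδ : 0 < δ) (hm : 2 ≤ m)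
    (h : SecGe (gauss2 1 0 1 P Q) δ) :
    roundGB m δ ≤ (-1) ^ m * gbc e (negT (gauss2 1 0 1 P Q)) := by
  have hfin : FiniteDimensional ℝ V := e.toBasis.finiteDimensional_of_finite
  have hn := finrank_two e
  exact bound_of_basis e hP hQ hδ.le h (basis_pos hP hQ hδ (by omega) h)

theorem bound_neg (e : OrthonormalBasis (Fin m × Bool) ℝ V) {P Q : V → V → ℝ}
    (hP : SymForm P) (hQ : SymForm Q) {δ : ℝ} (hδ : 0 ≤ δ) (hm : 2 ≤ m)
    (h : SecGe (gauss2 (-1) 0 (-1) P Q) δ) :
    roundGB m δ ≤ (-1) ^ m * gbc e (negT (gauss2 (-1) 0 (-1) P Q)) := by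
  have hfin : FiniteDimensional ℝ V := e.toBasis.finiteDimensional_of_finite
  have hn := finrank_two e
  rcases hδ.eq_or_lt with h1 | h1
  · rw [← h1, pair_gauss hP hQ]
    have h2 := Pool.Agent.Y489.SM.criterion e (pairL hP hQ) (pair_symm hP hQ) le_rfl
      (fun k hk0 hkm hk =>
        Or.inr ⟨Or.inr (by rw [hk rfl]; simpa using hm), pair_sec hP hQ hδ h⟩)
    rwa [Pool.Agent.Y489.SM.shift_zero] at h2
  · exact (no_neg hP hQ h1 (by omega) h).elim

end Pool.Agent.U474.KN
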