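import Pool.Agent.U474.KN.Cod

/-!
# The sector argument
-/

set_option autoImplicit false

namespace Pool.Agent.U474.KN

open Pool.Agent.W666.GB Pool.Agent.W669.HD Pool.Agent.W688.HD Finset

/-- normalisation -/
theorem rot_norm {S : Set (ℝ × ℝ)} {p q : ℝ} (h0 : 0 < p ^ 2 + q ^ 2)
    (h : ∀ u ∈ S, 0 ≤ p * u.1 + q * u.2 ∧ 0 ≤ - q * u.1 + p * u.2) :
    ∃ p q : ℝ, p ^ 2 + q ^ 2 = 1 ∧ ∀ u ∈ S, 0 ≤ p * u.1 + q * u.2 ∧ 0 ≤ - q * u.1 + p * u.2 := by
  have h1 := Real.sq_sqrt h0.le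
  set r := Real.sqrt (p ^ 2 + q ^ 2) with hr
  have hr0 : 0 < r := Real.sqrt_pos.2 h0
  refine ⟨p / r, q / r, ?_, fun u hu => ?_⟩
  · field_simp
    rw [h1]
  · obtain ⟨h2, h3⟩ := h u hu
    constructor
    · have : p / r * u.1 + q / r * u.2 = (p * u.1 + q * u.2) / r := by ring
      rw [this]; positivity
    · have : - (q / r) * u.1 + p / r * u.2 = (- q * u.1 + p * u.2) / r := by ring
      rw [this]; positivity

/-- Vectors of the plane with pairwise nonnegative inner products lie in a quadrant. -/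
theorem sector (S : Set (ℝ × ℝ)) (h : ∀ u ∈ S, ∀ v ∈ S, 0 ≤ u.1 * v.1 + u.2 * v.2) :
    ∃ p q : ℝ, p ^ 2 + q ^ 2 = 1 ∧ ∀ u ∈ S, 0 ≤ p * u.1 + q * u.2 ∧ 0 ≤ - q * u.1 + p * u.2 := by
  by_cases hS : ∀ u ∈ S, u = 0
  · refine ⟨1, 0, by norm_num, fun u hu => ?_⟩
    rw [hS u hu]; simp
  push Not at hS
  obtain ⟨u0, hu0, hne⟩ := hS
  set D : ℝ × ℝ → ℝ := fun c => u0.1 * c.1 + u0.2 * c.2 with hD
  set N : ℝ × ℝ → ℝ := fun c => - u0.2 * c.1 + u0.1 * c.2 with hN
  have hn : 0 < u0.1 ^ 2 + u0.2 ^ 2 := by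
    by_contra hc
    apply hne
    have h1 : u0.1 = 0 := by nlinarith [sq_nonneg u0.1, sq_nonneg u0.2]
    have h2 : u0.2 = 0 := by nlinarith [sq_nonneg u0.1, sq_nonneg u0.2]
    exact Prod.ext h1 h2
  have hD0 : ∀ c ∈ S, 0 ≤ D c := fun c hc => h u0 hu0 c hc
  have hpair : ∀ c ∈ S, ∀ c' ∈ S, 0 ≤ D c * D c' + N c * N c' := by
    intro c hc c' hc'
    have h1 := h c hc c' hc'
    have h2 : D c * D c' + N c * N c' = (u0.1 ^ 2 + u0.2 ^ 2) * (c.1 * c'.1 + c.2 * c'.2) := by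
      simp only [hD, hN]; ring
    rw [h2]; positivity
  -- the first rotation
  have hrot1 : (∀ c ∈ S, 0 ≤ N c) → ∃ p q : ℝ, p ^ 2 + q ^ 2 = 1 ∧
      ∀ u ∈ S, 0 ≤ p * u.1 + q * u.2 ∧ 0 ≤ - q * u.1 + p * u.2 := fun hN0 =>
    rot_norm hn fun c hc => ⟨hD0 c hc, hN0 c hc⟩
  have hrot2 : ∀ s : ℝ, (∀ c ∈ S, 0 ≤ s * D c - N c ∧ 0 ≤ D c + s * N c) → ∃ p q : ℝ,
      p ^ 2 + q ^ 2 = 1 ∧ ∀ u ∈ S, 0 ≤ p * u.1 + q * u.2 ∧ 0 ≤ - q * u.1 + p * u.2 := by
    intro s hs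
    refine rot_norm (p := s * u0.1 + u0.2) (q := s * u0.2 - u0.1) ?_ fun c hc => ?_
    · have : (s * u0.1 + u0.2) ^ 2 + (s * u0.2 - u0.1) ^ 2 =
          (s ^ 2 + 1) * (u0.1 ^ 2 + u0.2 ^ 2) := by ring
      rw [this]; positivity
    · obtain ⟨h1, h2⟩ := hs c hc
      simp only [hD, hN] at h1 h2
      constructor
      · linarith
      · linarith
  by_cases hA : ∃ c1 ∈ S, D c1 = 0 ∧ N c1 ≠ 0
  · obtain ⟨c1, hc1, h1, h2⟩ := hA
    rcases lt_or_gt_of_ne h2 with h3 | h3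
    · -- all `N c ≤ 0`
      refine hrot2 0 fun c hc => ?_
      have h4 := hpair c hc c1 hc1
      rw [h1, mul_zero, zero_add] at h4
      have h5 : N c ≤ 0 := by
        by_contra hc'
        push Not at hc'
        nlinarith
      exact ⟨by linarith, by linarith [hD0 c hc]⟩
    · refine hrot1 fun c hc => ?_
      have h4 := hpair c hc c1 hc1
      rw [h1, mul_zero, zero_add] at h4
      by_contra hc'
      push Not at hc'
      nlinarith
  push Not at hA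
  set T : Set ℝ := {σ | ∃ c ∈ S, 0 < D c ∧ N c = σ * D c} with hT
  have hprodT : ∀ σ ∈ T, ∀ σ' ∈ T, 0 ≤ 1 + σ * σ' := by
    rintro σ ⟨c, hc, h1, h2⟩ σ' ⟨c', hc', h1', h2'⟩
    have h3 := hpair c hc c' hc'
    rw [h2, h2'] at h3
    have h4 : D c * D c' + σ * D c * (σ' * D c') = (D c * D c') * (1 + σ * σ') := by ring
    rw [h4] at h3
    have h5 : 0 < D c * D c' := mul_pos h1 h1'
    by_contra hneg
    push Not at hneg
    nlinarith
  have h0T : (0 : ℝ) ∈ T := by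
    refine ⟨u0, hu0, ?_, ?_⟩
    · simp only [hD]; nlinarith
    · simp only [hN]; ring
  have hmem : ∀ c ∈ S, D c = 0 ∧ N c = 0 ∨ ∃ σ ∈ T, 0 < D c ∧ N c = σ * D c := by
    intro c hc
    rcases (hD0 c hc).eq_or_lt with h1 | h1
    · exact Or.inl ⟨h1.symm, hA c hc h1.symm⟩
    · refine Or.inr ⟨N c / D c, ⟨c, hc, h1, ?_⟩, h1, ?_⟩
      · rw [div_mul_cancel₀ _ h1.ne']
      · rw [div_mul_cancel₀ _ h1.ne']
  by_cases hb : BddAbove T
  · have hs0 : 0 ≤ sSup T := le_csSup hb h0T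
    refine hrot2 (sSup T) fun c hc => ?_
    rcases hmem c hc with ⟨h1, h2⟩ | ⟨σ, hσ, h1, h2⟩
    · rw [h1, h2]; simp
    · have h3 : σ ≤ sSup T := le_csSup hb hσ
      have h4 : 0 ≤ 1 + sSup T * σ := by
        rcases le_or_gt 0 σ with h5 | h5
        · positivity
        · have h6 : sSup T ≤ -1 / σ := by
            refine csSup_le ⟨0, h0T⟩ fun σ' hσ' => ?_
            have h7 := hprodT σ hσ σ' hσ'
            rw [le_div_iff_of_neg h5]
            linarith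
          rw [le_div_iff_of_neg h5] at h6
          linarith
      rw [h2]
      constructor
      · nlinarith
      · nlinarith
  · refine hrot1 fun c hc => ?_
    rcases hmem c hc with ⟨h1, h2⟩ | ⟨σ, hσ, h1, h2⟩
    · rw [h2]
    · rw [h2]
      have h3 : 0 ≤ σ := by
        by_contra h5
        push Not at h5
        apply hb
        refine ⟨-1 / σ, fun σ' hσ' => ?_⟩
        have h7 := hprodT σ hσ σ' hσ'
        rw [le_div_iff_of_neg h5]
        linarith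
      positivity

variable {V : Type} [NormedAddCommGroup V] [InnerProductSpace ℝ V]

omit [NormedAddCommGroup V] [InnerProductSpace ℝ V] in
theorem add_op {K L : V → V → V → V → ℝ} (hK : OpNonneg K) (hL : OpNonneg L) :
    OpNonneg (fun x y z w => K x y z w + L x y z w) := by
  intro n x y
  have h1 := hK n x y
  have h2 := hL n x y
  simp only [Finset.sum_add_distrib]
  linarith

/-- **Weinstein's theorem, two squares.** -/
theorem op_def {P Q : V → V → ℝ} (hP : SymForm P) (hQ : SymForm Q)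
    (h : SecGe (gauss2 1 0 1 P Q) 0) : OpNonneg (gauss2 1 0 1 P Q) := by
  obtain ⟨p, q, hpq, hr⟩ := sector (Set.range fun x : V => (P x x, Q x x)) (by
    rintro u ⟨x, rfl⟩ v ⟨y, rfl⟩
    have h1 := h x y
    simp only [gauss2] at h1
    rw [hP.symm y x, hQ.symm y x] at h1
    simp only
    nlinarith [sq_nonneg (P x y), sq_nonneg (Q x y)])
  have h1 := op_semi (hP.comb hQ p q) fun x => (hr _ ⟨x, rfl⟩).1
  have h2 := op_semi (hP.comb hQ (-q) p) fun x => (hr _ ⟨x, rfl⟩).2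
  have h3 : gauss2 1 0 1 P Q = fun x y z w =>
      gauss2 1 0 0 (fun x y => p * P x y + q * Q x y) (fun x y => p * P x y + q * Q x y) x y z w +
      gauss2 1 0 0 (fun x y => -q * P x y + p * Q x y) (fun x y => -q * P x y + p * Q x y)
        x y z w := by
    funext x y z w
    simp only [gauss2]
    linear_combination (-(P x z * P y w) + P x w * P y z - Q x z * Q y w + Q x w * Q y z) * hpq
  rw [h3]
  exact add_op h1 h2

/-- **Weinstein's theorem for normal planes of any signature but one.** -/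
theorem op_gauss2 {A B : V → V → ℝ} (hA : SymForm A) (hB : SymForm B) {a b c : ℝ}
    (hq : ¬ (a < 0 ∧ b ^ 2 < a * c)) (h : SecGe (gauss2 a b c A B) 0) :
    OpNonneg (gauss2 a b c A B) := by
  rcases normal_form hA hB a b c with ⟨P, Q, hP, hQ, hE⟩ | ⟨-, -, P, Q, hP, hQ, hE⟩ | ⟨h1, h2, -⟩
  · rw [hE] at h ⊢
    exact op_kn hP hQ h
  · rw [hE] at h ⊢
    exact op_def hP hQ h
  · exact absurd ⟨h1, h2⟩ hq

end Pool.Agent.U474.KN
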